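import Pool.Agent.Run7.h682.HR.Pol

set_option autoImplicit false

open Set Metric Filter Topology
open scoped NNReal ENNReal

namespace Run7.h682.HR

variable {n : ℕ}

/-- real basis vectors of `ℂⁿ` -/
noncomputable def be (n : ℕ) : Fin n ⊕ Fin n → (Fin n → ℂ) :=
  Sum.elim (fun i => Pi.single i 1) (fun i => Pi.single i Complex.I)

/-- real coordinates of `ℂⁿ` -/
def co (n : ℕ) (s : Fin n ⊕ Fin n) (y : Fin n → ℂ) : ℝ :=
  Sum.elim (fun i => (y i).re) (fun i => (y i).im) s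

/-- complexified real coordinates -/
noncomputable def cX (n : ℕ) : Fin n ⊕ Fin n → ((Fin n → ℂ) × (Fin n → ℂ)) →L[ℂ] ℂ :=
  Sum.elim
    (fun i => (2⁻¹ : ℂ) • ((ContinuousLinearMap.proj i).comp (ContinuousLinearMap.fst ℂ _ _) +
      (ContinuousLinearMap.proj i).comp (ContinuousLinearMap.snd ℂ _ _)))
    (fun i => ((2 * Complex.I)⁻¹ : ℂ) •
      ((ContinuousLinearMap.proj i).comp (ContinuousLinearMap.fst ℂ _ _) -
      (ContinuousLinearMap.proj i).comp (ContinuousLinearMap.snd ℂ _ _)))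

theorem be_norm (s : Fin n ⊕ Fin n) : ‖be n s‖ ≤ 1 := by
  rw [pi_norm_le_iff_of_nonneg zero_le_one]
  intro j
  rcases s with i | i <;> simp only [be, Sum.elim_inl, Sum.elim_inr, Pi.single_apply] <;>
    split_ifs <;> simp

theorem be_expand (y : Fin n → ℂ) : y = ∑ s, co n s y • be n s := by
  funext j
  rw [Fintype.sum_sum_type]
  simp only [co, be, Sum.elim_inl, Sum.elim_inr, Pi.add_apply, Finset.sum_apply, Pi.smul_apply,
    Pi.single_apply, smul_ite, smul_zero, Finset.sum_ite_eq, Finset.mem_univ, if_true,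
    Complex.real_smul, mul_one]
  exact (Complex.re_add_im (y j)).symm

theorem cX_norm (s : Fin n ⊕ Fin n) : ‖cX n s‖ ≤ 1 := by
  apply ContinuousLinearMap.opNorm_le_bound _ zero_le_one
  rintro ⟨z, w⟩
  have hz : ‖z‖ ≤ ‖((z, w) : (Fin n → ℂ) × (Fin n → ℂ))‖ := norm_fst_le (z, w)
  have hw : ‖w‖ ≤ ‖((z, w) : (Fin n → ℂ) × (Fin n → ℂ))‖ := norm_snd_le (z, w)
  rcases s with i | i
  · have e : cX n (Sum.inl i) (z, w) = (2⁻¹ : ℂ) * (z i + w i) := by simp [cX, mul_add]
    rw [e, norm_mul, norm_inv]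
    have h1 := norm_add_le (z i) (w i)
    have h2 := norm_le_pi_norm z i
    have h3 := norm_le_pi_norm w i
    have h4 : ‖(2 : ℂ)‖ = 2 := by simp
    rw [h4]
    nlinarith
  · have e : cX n (Sum.inr i) (z, w) = ((2 * Complex.I)⁻¹ : ℂ) * (z i - w i) := by simp [cX]
    rw [e, norm_mul, norm_inv, norm_mul]
    have h1 := norm_sub_le (z i) (w i)
    have h2 := norm_le_pi_norm z i
    have h3 := norm_le_pi_norm w i
    have h4 : ‖(2 : ℂ)‖ = 2 := by simp
    rw [h4, Complex.norm_I]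
    nlinarith

theorem cX_star (s : Fin n ⊕ Fin n) (y : Fin n → ℂ) : cX n s (y, star y) = (co n s y : ℂ) := by
  rcases s with i | i
  · have e : cX n (Sum.inl i) (y, star y) = (2⁻¹ : ℂ) * (y i + star (y i)) := by
      simp [cX, mul_add]
    rw [e]
    have : y i + star (y i) = ((2 * (y i).re : ℝ) : ℂ) := Complex.add_conj (y i)
    rw [this]
    simp [co]
  · have e : cX n (Sum.inr i) (y, star y) = ((2 * Complex.I)⁻¹ : ℂ) * (y i - star (y i)) := by
      simp [cX]
    rw [e]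
    have : y i - star (y i) = ((2 * (y i).im : ℝ) : ℂ) * Complex.I := Complex.sub_conj (y i)
    rw [this]
    simp only [co, Sum.elim_inr]
    push_cast
    field_simp

/-- the complexified power series -/
noncomputable def cQ (q : FormalMultilinearSeries ℝ (Fin n → ℂ) ℝ) :
    FormalMultilinearSeries ℂ ((Fin n → ℂ) × (Fin n → ℂ)) ℂ := fun m =>
  ∑ σ : Fin m → Fin n ⊕ Fin n, ((q m (fun j => be n (σ j)) : ℝ) : ℂ) •
    (ContinuousMultilinearMap.mkPiAlgebra ℂ (Fin m) ℂ).compContinuousLinearMap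
      (fun j => cX n (σ j))

theorem cQ_star (q : FormalMultilinearSeries ℝ (Fin n → ℂ) ℝ) (m : ℕ) (y : Fin n → ℂ) :
    cQ q m (fun _ => (y, star y)) = ((q m (fun _ => y) : ℝ) : ℂ) := by
  have h1 : q m (fun _ => y) = ∑ σ : Fin m → Fin n ⊕ Fin n,
      (∏ j, co n (σ j) y) * q m (fun j => be n (σ j)) := by
    have : (fun _ : Fin m => y) = fun _ : Fin m => ∑ s, co n s y • be n s := by
      funext _
      exact be_expand y
    rw [this, ContinuousMultilinearMap.map_sum]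
    refine Finset.sum_congr rfl fun σ _ => ?_
    rw [ContinuousMultilinearMap.map_smul_univ, smul_eq_mul]
  rw [h1]
  simp only [cQ, _root_.sum_apply, _root_.smul_apply,
    ContinuousMultilinearMap.compContinuousLinearMap_apply,
    ContinuousMultilinearMap.mkPiAlgebra_apply, cX_star, smul_eq_mul]
  push_cast
  refine Finset.sum_congr rfl fun σ _ => ?_
  ring

theorem cQ_norm (q : FormalMultilinearSeries ℝ (Fin n → ℂ) ℝ) (m : ℕ) :
    ‖cQ q m‖ ≤ ((2 * n + 1 : ℕ) : ℝ) ^ m * ‖q m‖ := by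
  have h1 : ∀ σ : Fin m → Fin n ⊕ Fin n, ‖((q m (fun j => be n (σ j)) : ℝ) : ℂ) •
    (ContinuousMultilinearMap.mkPiAlgebra ℂ (Fin m) ℂ).compContinuousLinearMap
      (fun j => cX n (σ j))‖ ≤ ‖q m‖ := by
    intro σ
    rw [norm_smul, Complex.norm_real]
    have ha : ‖q m (fun j => be n (σ j))‖ ≤ ‖q m‖ := by
      have := (q m).le_opNorm (fun j => be n (σ j))
      refine this.trans ?_
      have hp : ∏ j, ‖be n (σ j)‖ ≤ 1 :=
        Finset.prod_le_one (fun _ _ => norm_nonneg _) (fun j _ => be_norm _)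
      nlinarith [norm_nonneg (q m)]
    have hb : ‖(ContinuousMultilinearMap.mkPiAlgebra ℂ (Fin m) ℂ).compContinuousLinearMap
      (fun j => cX n (σ j))‖ ≤ 1 := by
      refine (ContinuousMultilinearMap.norm_compContinuousLinearMap_le _ _).trans ?_
      rw [ContinuousMultilinearMap.norm_mkPiAlgebra, one_mul]
      exact Finset.prod_le_one (fun _ _ => norm_nonneg _) (fun j _ => cX_norm _)
    calc _ ≤ ‖q m‖ * 1 := mul_le_mul ha hb (norm_nonneg _) (norm_nonneg _)
      _ = ‖q m‖ := mul_one _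
  calc ‖cQ q m‖ ≤ ∑ σ : Fin m → Fin n ⊕ Fin n, ‖q m‖ :=
        norm_sum_le_of_le _ (fun σ _ => h1 σ)
    _ = ((n + n : ℕ) : ℝ) ^ m * ‖q m‖ := by
        rw [Finset.sum_const, Finset.card_univ, nsmul_eq_mul]
        simp
    _ ≤ ((2 * n + 1 : ℕ) : ℝ) ^ m * ‖q m‖ := by
        apply mul_le_mul_of_nonneg_right _ (norm_nonneg _)
        apply pow_le_pow_left₀ (by positivity)
        push_cast
        linarith

/-- local complexification of a real-analytic function -/
theorem complexify {p : (Fin n → ℂ) → ℝ} {z₀ : Fin n → ℂ} (hp : AnalyticAt ℝ p z₀) :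
    ∃ r > 0, ∃ P : (Fin n → ℂ) × (Fin n → ℂ) → ℂ,
      DifferentiableOn ℂ P (Metric.ball z₀ r ×ˢ Metric.ball (star z₀) r) ∧
      ∀ z ∈ Metric.ball z₀ r, P (z, star z) = (p z : ℂ) := by
  obtain ⟨q, r, hq⟩ := hp
  obtain ⟨r₁, hr₁0, hr₁⟩ : ∃ r₁ : ℝ≥0, 0 < r₁ ∧ (r₁ : ℝ≥0∞) < r := by
    obtain ⟨r₁, h1, h2⟩ := ENNReal.lt_iff_exists_nnreal_btwn.1 hq.r_pos
    exact ⟨r₁, by exact_mod_cast h1, h2⟩
  obtain ⟨C, hC, hbd⟩ := q.norm_mul_pow_le_of_lt_radius (lt_of_lt_of_le hr₁ hq.r_le)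
  let K : ℝ≥0 := ((2 * n + 1 : ℕ) : ℝ≥0)
  have hK : 0 < K := by positivity
  let r₂ : ℝ≥0 := r₁ / K
  have hr₂ : 0 < r₂ := by positivity
  have hrad : (r₂ : ℝ≥0∞) ≤ (cQ q).radius := by
    apply FormalMultilinearSeries.le_radius_of_bound _ C
    intro m
    calc ‖cQ q m‖ * (r₂ : ℝ) ^ m ≤ ((2 * n + 1 : ℕ) : ℝ) ^ m * ‖q m‖ * (r₂ : ℝ) ^ m :=
          mul_le_mul_of_nonneg_right (cQ_norm q m) (by positivity)
      _ = ‖q m‖ * (r₁ : ℝ) ^ m := by
          have : (r₁ : ℝ) = ((2 * n + 1 : ℕ) : ℝ) * (r₂ : ℝ) := by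
            simp only [r₂, K, NNReal.coe_div, NNReal.coe_natCast]
            field_simp
          rw [this, mul_pow]
          ring
      _ ≤ C := hbd m
  have hpos : 0 < (cQ q).radius := lt_of_lt_of_le (by exact_mod_cast hr₂) hrad
  have hS := (cQ q).hasFPowerSeriesOnBall hpos
  have hD := hS.differentiableOn
  refine ⟨r₂, by exact_mod_cast hr₂, fun x => (cQ q).sum (x - (z₀, star z₀)), ?_, ?_⟩
  · apply hD.comp (differentiable_id.sub_const _).differentiableOn
    rintro ⟨z, w⟩ ⟨hz, hw⟩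
    simp only [mem_ball_iff_norm] at hz hw
    rw [Metric.mem_eball, edist_zero_right]
    refine lt_of_lt_of_le ?_ hrad
    have : ‖((z, w) : (Fin n → ℂ) × (Fin n → ℂ)) - (z₀, star z₀)‖ < (r₂ : ℝ) := by
      rw [Prod.norm_def]
      exact max_lt hz hw
    rw [← ofReal_norm, ENNReal.ofReal_lt_coe_iff]
    · exact this
    · exact norm_nonneg _
  · intro z hz
    rw [mem_ball_iff_norm] at hz
    have e : ((z, star z) : (Fin n → ℂ) × (Fin n → ℂ)) - (z₀, star z₀) =
        (z - z₀, star (z - z₀)) := by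
      rw [star_sub]
      rfl
    show (cQ q).sum ((z, star z) - (z₀, star z₀)) = _
    rw [e, FormalMultilinearSeries.sum]
    simp_rw [cQ_star]
    have hy : z - z₀ ∈ Metric.eball (0 : Fin n → ℂ) r := by
      rw [Metric.mem_eball, edist_zero_right]
      refine lt_of_lt_of_le ?_ hr₁.le
      rw [← ofReal_norm, ENNReal.ofReal_lt_coe_iff]
      · refine lt_of_lt_of_le hz ?_
        have h1 : (1 : ℝ) ≤ K := by
          simp only [K]
          push_cast
          have : (0 : ℝ) ≤ n := Nat.cast_nonneg n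
          linarith
        simp only [r₂, NNReal.coe_div]
        exact div_le_self (NNReal.coe_nonneg _) h1
      · exact norm_nonneg _
    have hs := hq.hasSum hy
    rw [add_sub_cancel] at hs
    have hs' : HasSum (fun m => ((q m (fun _ => z - z₀) : ℝ) : ℂ)) (p z : ℂ) :=
      Complex.ofRealCLM.hasSum hs
    exact hs'.tsum_eq

end Run7.h682.HR
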