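import Pool.Agent.Run7.h682.HR.Lin

set_option autoImplicit false

open Set Metric Filter Topology

namespace Run7.h682.HR

theorem spec {d : ℕ} (B : Matrix (Fin d) (Fin d) ℂ) (hB : B.IsHermitian) :
    ∃ (U : Matrix (Fin d) (Fin d) ℂ) (μ : Fin d → ℝ), ∀ i j,
      B i j = ∑ l, U i l * (μ l : ℂ) * star (U j l) := by
  refine ⟨hB.eigenvectorUnitary, hB.eigenvalues, fun i j => ?_⟩
  have h := hB.spectral_theorem
  rw [Unitary.conjStarAlgAut_apply] at h
  have h2 := congrFun (congrFun h i) j
  rw [h2, Matrix.mul_apply]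
  refine Finset.sum_congr rfl fun l _ => ?_
  rw [Matrix.mul_diagonal]
  rfl

/-- diagonalisation of a Hermitian sum -/
theorem diag {X : Type*} {d : ℕ} (h : Fin d → X → ℂ) (A : Matrix (Fin d) (Fin d) ℂ) (S : Set X)
    (p : X → ℝ) (hp : ∀ z ∈ S, (p z : ℂ) = ∑ i, ∑ j, A i j * h i z * star (h j z)) :
    ∃ (ε : Fin d → ℝ) (C : Fin d → Fin d → ℂ), (∀ j, ε j = 1 ∨ ε j = -1) ∧
      ∀ z ∈ S, p z = ∑ j, ε j * Complex.normSq (∑ i, C j i * h i z) := by
  let B : Matrix (Fin d) (Fin d) ℂ := (2⁻¹ : ℂ) • (A + A.conjTranspose)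
  have hB : B.IsHermitian := by
    unfold B Matrix.IsHermitian
    rw [Matrix.conjTranspose_smul, Matrix.conjTranspose_add, Matrix.conjTranspose_conjTranspose,
      add_comm]
    congr 1
    simp
  obtain ⟨U, μ, hU⟩ := spec B hB
  have hpB : ∀ z ∈ S, (p z : ℂ) = ∑ i, ∑ j, B i j * h i z * star (h j z) := by
    intro z hz
    have h1 := hp z hz
    have h2 : (p z : ℂ) = ∑ i, ∑ j, A.conjTranspose i j * h i z * star (h j z) := by
      have h3 := congrArg star h1
      have h4 : star (p z : ℂ) = (p z : ℂ) := Complex.conj_ofReal _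
      rw [h4] at h3
      rw [h3, star_sum, Finset.sum_comm]
      rw [← Finset.sum_comm]
      simp_rw [star_sum]
      rw [Finset.sum_comm]
      refine Finset.sum_congr rfl fun i _ => Finset.sum_congr rfl fun j _ => ?_
      rw [star_mul', star_mul', star_star, Matrix.conjTranspose_apply]
      ring
    have h5 : (p z : ℂ) = 2⁻¹ * ((p z : ℂ) + (p z : ℂ)) := by ring
    rw [h5]
    nth_rewrite 1 [h1]
    rw [h2, ← Finset.sum_add_distrib, Finset.mul_sum]
    refine Finset.sum_congr rfl fun i _ => ?_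
    rw [← Finset.sum_add_distrib, Finset.mul_sum]
    refine Finset.sum_congr rfl fun j _ => ?_
    simp only [B, Matrix.smul_apply, Matrix.add_apply, smul_eq_mul]
    ring
  refine ⟨fun j => if μ j < 0 then -1 else 1, fun j i => (Real.sqrt |μ j| : ℂ) * U i j, ?_, ?_⟩
  · intro j
    simp only
    split_ifs
    · right; rfl
    · left; rfl
  · intro z hz
    have h1 : (p z : ℂ) = ∑ l, (μ l : ℂ) * ((∑ i, U i l * h i z) * star (∑ i, U i l * h i z)) := by
      rw [hpB z hz]
      have hL : ∀ i j, B i j * h i z * star (h j z) =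
          ∑ l, (μ l : ℂ) * ((U i l * h i z) * star (U j l * h j z)) := by
        intro i j
        rw [hU, Finset.sum_mul, Finset.sum_mul]
        refine Finset.sum_congr rfl fun l _ => ?_
        rw [star_mul']
        ring
      have hR : ∀ l, (μ l : ℂ) * ((∑ i, U i l * h i z) * star (∑ i, U i l * h i z)) =
          ∑ i, ∑ j, (μ l : ℂ) * ((U i l * h i z) * star (U j l * h j z)) := by
        intro l
        rw [star_sum, Finset.sum_mul_sum, Finset.mul_sum]
        refine Finset.sum_congr rfl fun i _ => ?_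
        rw [Finset.mul_sum]
      calc ∑ i, ∑ j, B i j * h i z * star (h j z)
          = ∑ i, ∑ j, ∑ l, (μ l : ℂ) * ((U i l * h i z) * star (U j l * h j z)) :=
            Finset.sum_congr rfl fun i _ => Finset.sum_congr rfl fun j _ => hL i j
        _ = ∑ i, ∑ l, ∑ j, (μ l : ℂ) * ((U i l * h i z) * star (U j l * h j z)) :=
            Finset.sum_congr rfl fun i _ => Finset.sum_comm
        _ = ∑ l, ∑ i, ∑ j, (μ l : ℂ) * ((U i l * h i z) * star (U j l * h j z)) :=
            Finset.sum_comm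
        _ = _ := Finset.sum_congr rfl fun l _ => (hR l).symm
    apply Complex.ofReal_injective
    rw [h1]
    rw [Complex.ofReal_sum]
    refine Finset.sum_congr rfl fun l _ => ?_
    have h2 : ∑ i, (Real.sqrt |μ l| : ℂ) * U i l * h i z =
        (Real.sqrt |μ l| : ℂ) * ∑ i, U i l * h i z := by
      rw [Finset.mul_sum]
      exact Finset.sum_congr rfl fun i _ => by ring
    rw [h2, map_mul, Complex.normSq_ofReal, Real.mul_self_sqrt (abs_nonneg _)]
    have h3 : (∑ i, U i l * h i z) * star (∑ i, U i l * h i z) =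
        (Complex.normSq (∑ i, U i l * h i z) : ℂ) := Complex.mul_conj _
    rw [h3, Complex.ofReal_mul, Complex.ofReal_mul]
    beta_reduce
    split_ifs with hneg
    · rw [abs_of_neg hneg]
      push_cast
      ring
    · rw [abs_of_nonneg (not_lt.1 hneg)]
      push_cast
      ring

/-- removing a dependent function -/
theorem shrink {X : Type*} {d : ℕ} (f : Fin (d + 1) → X → ℂ) (ε : Fin (d + 1) → ℝ) (S : Set X)
    (p : X → ℝ) (hp : ∀ z ∈ S, p z = ∑ j, ε j * Complex.normSq (f j z))
    (l : Fin (d + 1) → ℂ) (hl : l ≠ 0) (hs : ∀ z ∈ S, ∑ j, l j * f j z = 0) :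
    ∃ (ε' : Fin d → ℝ) (s : Fin d → Fin (d + 1)) (C : Fin d → Fin d → ℂ),
      (∀ j, ε' j = 1 ∨ ε' j = -1) ∧
      ∀ z ∈ S, p z = ∑ j, ε' j * Complex.normSq (∑ i, C j i * f (s i) z) := by
  obtain ⟨j₀, hj₀⟩ : ∃ j, l j ≠ 0 := Function.ne_iff.1 hl
  let s : Fin d → Fin (d + 1) := j₀.succAbove
  let a : Fin d → ℂ := fun i => -(l (s i) / l j₀)
  have hf : ∀ z ∈ S, f j₀ z = ∑ i, a i * f (s i) z := by
    intro z hz
    have h1 := hs z hz
    rw [Fin.sum_univ_succAbove _ j₀] at h1
    have h2 : ∑ i, a i * f (s i) z = -(1 / l j₀) * ∑ i, l (s i) * f (s i) z := by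
      rw [Finset.mul_sum]
      refine Finset.sum_congr rfl fun i _ => ?_
      simp only [a]
      field_simp
    rw [h2]
    have h3 : ∑ i, l (s i) * f (s i) z = -(l j₀ * f j₀ z) := by
      linear_combination h1
    rw [h3]
    field_simp
  let A : Matrix (Fin d) (Fin d) ℂ := Matrix.of fun i j =>
    (ε j₀ : ℂ) * a i * star (a j) + (if i = j then (ε (s i) : ℂ) else 0)
  obtain ⟨ε', C, hε', hC⟩ := diag (fun i => f (s i)) A S p (by
    intro z hz
    rw [hp z hz, Fin.sum_univ_succAbove _ j₀, hf z hz]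
    have e1 : ∀ w : ℂ, (Complex.normSq w : ℂ) = w * star w := fun w => (Complex.mul_conj w).symm
    rw [Complex.ofReal_add, Complex.ofReal_mul, e1, Complex.ofReal_sum, star_sum,
      Finset.sum_mul_sum, Finset.mul_sum, ← Finset.sum_add_distrib]
    refine Finset.sum_congr rfl fun i _ => ?_
    have h1 : ∑ j, (if i = j then (ε (s i) : ℂ) else 0) * f (s i) z * star (f (s j) z) =
        ((ε (s i) * Complex.normSq (f (s i) z) : ℝ) : ℂ) := by
      simp_rw [ite_mul, zero_mul]
      rw [Finset.sum_ite_eq]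
      simp only [Finset.mem_univ, if_true]
      rw [Complex.ofReal_mul, e1]
      ring
    rw [Finset.mul_sum]
    show _ + ((ε (s i) * Complex.normSq (f (s i) z) : ℝ) : ℂ) = _
    rw [← h1, ← Finset.sum_add_distrib]
    refine Finset.sum_congr rfl fun j _ => ?_
    simp only [A, Matrix.of_apply, star_mul']
    ring)
  exact ⟨ε', s, C, hε', hC⟩

end Run7.h682.HR
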