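import Pool.Agent.Run7.h682.HR.Lin

set_option autoImplicit false

open Set Metric Filter Topology

namespace Run7.h682.HR

/-- triangular numbers -/
def NN : ℕ → ℕ
  | 0 => 0
  | (k + 1) => NN k + (k + 1)

variable {n : ℕ}

/-- the linear forms `z₀ + t z₁` -/
def ell (i₀ i₁ : Fin n) (t : ℕ) (z : Fin n → ℂ) : ℂ := z i₀ + (t : ℂ) * z i₁

theorem ell_cont (i₀ i₁ : Fin n) (t : ℕ) : Continuous (ell i₀ i₁ t) := by
  unfold ell
  fun_prop

/-- dimension bound: if the restrictions to many hyperplanes near a point have rank at most `k`,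
then the space has dimension at most `NN k` -/
theorem dim_bound {i₀ i₁ : Fin n} (hi : i₀ ≠ i₁) : ∀ (k : ℕ)
    (F : Submodule ℂ ((Fin n → ℂ) → ℂ)) (B : Set (Fin n → ℂ)), IsOpen B → CC B →
    (∀ f ∈ F, DifferentiableOn ℂ f B) → (∀ f ∈ F, ∀ x, x ∉ B → f x = 0) →
    ∀ o ∈ B, ∀ T : Finset ℕ, k + 1 ≤ T.card →
    (∀ t ∈ T, ∀ᶠ c in 𝓝 (ell i₀ i₁ t o), ∀ f : Fin (k + 1) → (Fin n → ℂ) → ℂ, (∀ i, f i ∈ F) →
      ∀ x : Fin (k + 1) → Fin n → ℂ, (∀ j, x j ∈ B ∧ ell i₀ i₁ t (x j) = c) →
        (Matrix.of fun i j => f i (x j)).det = 0) →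
    Module.rank ℂ F ≤ NN k := by
  intro k
  induction k with
  | zero =>
    intro F B hB hBc hdiff hzero o ho T hT H
    obtain ⟨t, ht⟩ : T.Nonempty := Finset.card_pos.1 (by omega)
    have hF : F = ⊥ := by
      rw [Submodule.eq_bot_iff]
      intro f hf
      have h1 : ∀ᶠ x in 𝓝 o, f x = 0 := by
        have h2 : Tendsto (ell i₀ i₁ t) (𝓝 o) (𝓝 (ell i₀ i₁ t o)) := (ell_cont i₀ i₁ t).tendsto o
        filter_upwards [h2.eventually (H t ht), hB.mem_nhds ho] with x hx hxB
        have := hx (fun _ => f) (fun _ => hf) (fun _ => x) (fun _ => ⟨hxB, rfl⟩)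
        simpa using this
      have h2 := ident hB hBc (hdiff f hf) ho h1
      funext x
      by_cases hx : x ∈ B
      · exact h2 x hx
      · exact hzero f hf x hx
    rw [hF]
    simp
  | succ k ih =>
    intro F B hB hBc hdiff hzero o ho T hT H
    by_cases hbot : F = ⊥
    · rw [hbot]
      simp
    obtain ⟨f, hf, hf0⟩ := (Submodule.ne_bot_iff F).1 hbot
    -- a nearby point with `f ≠ 0`
    have hfreq : ∃ᶠ x in 𝓝 o, f x ≠ 0 := by
      intro hev
      apply hf0
      have h1 : ∀ᶠ x in 𝓝 o, f x = 0 := by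
        filter_upwards [hev] with x hx
        exact not_not.1 hx
      have h2 := ident hB hBc (hdiff f hf) ho h1
      funext x
      by_cases hx : x ∈ B
      · exact h2 x hx
      · exact hzero f hf x hx
    have hev : ∀ᶠ x in 𝓝 o, x ∈ B ∧ ∀ t ∈ T, ∀ᶠ c in 𝓝 (ell i₀ i₁ t x),
        ∀ f : Fin (k + 1 + 1) → (Fin n → ℂ) → ℂ, (∀ i, f i ∈ F) →
        ∀ x : Fin (k + 1 + 1) → Fin n → ℂ, (∀ j, x j ∈ B ∧ ell i₀ i₁ t (x j) = c) →
        (Matrix.of fun i j => f i (x j)).det = 0 := by
      apply Filter.Eventually.and (hB.mem_nhds ho)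
      rw [Filter.eventually_all_finset]
      intro t ht
      have h2 : Tendsto (ell i₀ i₁ t) (𝓝 o) (𝓝 (ell i₀ i₁ t o)) := (ell_cont i₀ i₁ t).tendsto o
      exact h2.eventually (eventually_eventually_nhds.2 (H t ht))
    obtain ⟨o', hfo, ho'B, H'⟩ := (hfreq.and_eventually hev).exists
    obtain ⟨t₀, ht₀⟩ : T.Nonempty := Finset.card_pos.1 (by omega)
    -- restriction to the hyperplane through `o'`
    let H₀ : Set (Fin n → ℂ) := {x | x ∈ B ∧ ell i₀ i₁ t₀ x = ell i₀ i₁ t₀ o'}
    let R : ((Fin n → ℂ) → ℂ) →ₗ[ℂ] (H₀ → ℂ) :=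
      { toFun := fun g x => g x
        map_add' := fun _ _ => rfl
        map_smul' := fun _ _ => rfl }
    let RF := R.domRestrict F
    let K : Submodule ℂ ((Fin n → ℂ) → ℂ) := (LinearMap.ker RF).map F.subtype
    have hK : ∀ g ∈ K, g ∈ F ∧ ∀ x ∈ H₀, g x = 0 := by
      rintro g ⟨g', hg', rfl⟩
      refine ⟨g'.2, fun x hx => ?_⟩
      have : RF g' = 0 := hg'
      exact congrFun this ⟨x, hx⟩
    -- rank of the kernel
    have hrK : Module.rank ℂ K ≤ NN k := by
      apply ih K B hB hBc (fun g hg => hdiff g (hK g hg).1) (fun g hg => hzero g (hK g hg).1) o'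
        ho'B (T.erase t₀) (by rw [Finset.card_erase_of_mem ht₀]; omega)
      intro t ht
      obtain ⟨htne, htT⟩ := Finset.mem_erase.1 ht
      have htt : (t : ℂ) - (t₀ : ℂ) ≠ 0 := by
        rw [sub_ne_zero]
        exact_mod_cast htne
      let d : Fin n → ℂ := Pi.single i₀ (-(t₀ : ℂ) / (t - t₀)) + Pi.single i₁ (1 / ((t : ℂ) - t₀))
      have hd0 : d i₀ = -(t₀ : ℂ) / (t - t₀) := by
        simp [d, hi]
      have hd1 : d i₁ = 1 / ((t : ℂ) - t₀) := by
        simp [d, hi.symm]
      let q : ℂ → Fin n → ℂ := fun c => o' + (c - ell i₀ i₁ t o') • d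
      have hq1 : ∀ c, ell i₀ i₁ t (q c) = c := by
        intro c
        simp only [ell, q, Pi.add_apply, Pi.smul_apply, smul_eq_mul, hd0, hd1]
        field_simp
        ring
      have hq2 : ∀ c, ell i₀ i₁ t₀ (q c) = ell i₀ i₁ t₀ o' := by
        intro c
        simp only [ell, q, Pi.add_apply, Pi.smul_apply, smul_eq_mul, hd0, hd1]
        field_simp
        ring
      have hqc : Continuous q := by
        unfold q
        fun_prop
      have hq0 : q (ell i₀ i₁ t o') = o' := by simp [q]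
      have hqt : Tendsto q (𝓝 (ell i₀ i₁ t o')) (𝓝 o') := by
        have := hqc.tendsto (ell i₀ i₁ t o')
        rwa [hq0] at this
      have hfc : ContinuousAt f o' := ((hdiff f hf).continuousOn).continuousAt (hB.mem_nhds ho'B)
      have e1 : ∀ᶠ c in 𝓝 (ell i₀ i₁ t o'), q c ∈ B := hqt.eventually (hB.mem_nhds ho'B)
      have e2 : ∀ᶠ c in 𝓝 (ell i₀ i₁ t o'), f (q c) ≠ 0 :=
        (hfc.tendsto.comp hqt).eventually_ne hfo
      filter_upwards [e1, e2, H' t htT] with c hc1 hc2 hc3
      intro g hg x hx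
      have hdet := hc3 (Fin.cons f g) (by
          intro i
          refine Fin.cases ?_ (fun i => ?_) i
          · simpa using hf
          · simpa using (hK _ (hg i)).1)
        (Fin.cons (q c) x) (by
          intro i
          refine Fin.cases ?_ (fun i => ?_) i
          · simpa using ⟨hc1, hq1 c⟩
          · simpa using hx i)
      rw [Matrix.det_succ_column_zero, Fin.sum_univ_succ] at hdet
      have hz : ∀ i : Fin (k + 1), (-1) ^ ((i.succ : Fin (k + 1 + 1)) : ℕ) *
          (Matrix.of fun (i j : Fin (k + 1 + 1)) => (Fin.cons f g : Fin (k + 1 + 1) → _) i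
            ((Fin.cons (q c) x : Fin (k + 1 + 1) → _) j)) i.succ 0 *
          ((Matrix.of fun (i j : Fin (k + 1 + 1)) => (Fin.cons f g : Fin (k + 1 + 1) → _) i
            ((Fin.cons (q c) x : Fin (k + 1 + 1) → _) j)).submatrix
              i.succ.succAbove Fin.succ).det = 0 := by
        intro i
        have : (Matrix.of fun (i j : Fin (k + 1 + 1)) => (Fin.cons f g : Fin (k + 1 + 1) → _) i
            ((Fin.cons (q c) x : Fin (k + 1 + 1) → _) j)) i.succ 0 = 0 := by
          simp only [Matrix.of_apply, Fin.cons_succ, Fin.cons_zero]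
          exact (hK _ (hg i)).2 _ ⟨hc1, hq2 c⟩
        rw [this]
        ring
      rw [Finset.sum_eq_zero (fun i _ => hz i), add_zero] at hdet
      simp only [Fin.val_zero, pow_zero, one_mul, Matrix.of_apply, Fin.cons_zero] at hdet
      rcases mul_eq_zero.1 hdet with h | h
      · exact absurd h hc2
      · convert h using 2
        ext i j
        simp
    -- rank of the restriction
    have hrR : Module.rank ℂ (LinearMap.range RF) ≤ ((k + 1 : ℕ) : Cardinal) := by
      apply rank_le_of_dep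
      intro v
      have hv : ∀ i, ∃ g : F, RF g = (v i : H₀ → ℂ) := fun i => (v i).2
      choose g hg using hv
      obtain ⟨l, hl, hsum⟩ := dep_of_minors (fun i => (g i : (Fin n → ℂ) → ℂ)) H₀
        (fun x hx => (H' t₀ ht₀).self_of_nhds (fun i => (g i : (Fin n → ℂ) → ℂ))
          (fun i => (g i).2) x hx)
      refine ⟨l, hl, ?_⟩
      apply Subtype.ext
      funext x
      have h1 := hsum x x.2
      rw [Submodule.coe_sum, Finset.sum_apply]
      simp only [Submodule.coe_smul, Pi.smul_apply, Submodule.coe_zero, Pi.zero_apply, smul_eq_mul]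
      rw [← h1]
      refine Finset.sum_congr rfl fun i _ => ?_
      rw [← hg i]
      rfl
    have h1 := LinearMap.rank_range_add_rank_ker RF
    have h2 : Module.rank ℂ (LinearMap.ker RF) = Module.rank ℂ K :=
      (Submodule.equivMapOfInjective F.subtype F.injective_subtype (LinearMap.ker RF)).rank_eq
    rw [← h1, h2]
    calc Module.rank ℂ (LinearMap.range RF) + Module.rank ℂ K
        ≤ ((k + 1 : ℕ) : Cardinal) + (NN k : Cardinal) := add_le_add hrR hrK
      _ = ((NN (k + 1) : ℕ) : Cardinal) := by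
          rw [NN, ← Nat.cast_add, add_comm]

end Run7.h682.HR
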