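import Pool.Agent.Run7.h682.HR.Loc
import Pool.Agent.Run7.h682.HR.Cx

set_option autoImplicit false

open Set Metric Filter Topology

namespace Run7.h682.HR

variable {n : ℕ}

/-- `p` has a complexification of size `δ` at `c` -/
def HasCx (p : (Fin n → ℂ) → ℝ) (c : Fin n → ℂ) (δ : ℝ) : Prop :=
  ∃ P : (Fin n → ℂ) × (Fin n → ℂ) → ℂ,
    DifferentiableOn ℂ P (Metric.ball c δ ×ˢ Metric.ball (star c) δ) ∧
    ∀ z ∈ Metric.ball c δ, P (z, star z) = (p z : ℂ)

theorem uniform_cx {p : (Fin n → ℂ) → ℝ} (hp : AnalyticOnNhd ℝ p Set.univ) (R : ℝ) :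
    ∃ δ > 0, ∀ c ∈ Metric.closedBall (0 : Fin n → ℂ) R, HasCx p c δ := by
  choose r hr P hP using fun z₀ => complexify (hp z₀ (mem_univ z₀))
  obtain ⟨δ, hδ, H⟩ := lebesgue_number_lemma_of_metric
    (isCompact_closedBall (0 : Fin n → ℂ) R) (c := fun z₀ => Metric.ball z₀ (r z₀))
    (fun _ => Metric.isOpen_ball) (fun z _ => mem_iUnion.2 ⟨z, mem_ball_self (hr z)⟩)
  refine ⟨δ, hδ, fun c hc => ?_⟩
  obtain ⟨z₀, hz₀⟩ := H c hc
  refine ⟨P z₀, (hP z₀).1.mono (prod_mono hz₀ ?_), fun z hz => (hP z₀).2 z (hz₀ hz)⟩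
  intro w hw
  have h1 := star_mem_ball hw
  rw [star_star] at h1
  have h2 := star_mem_ball (hz₀ h1)
  rwa [star_star] at h2

/-- sum of squares, in terms of complex numbers -/
theorem nsq (w : ℂ) : (Complex.normSq w : ℂ) = w * star w := (Complex.mul_conj w).symm

theorem sumStar_diff {m : ℕ} (ε : Fin m → ℝ) (f : Fin m → (Fin n → ℂ) → ℂ) {c : Fin n → ℂ}
    {r : ℝ} (hf : ∀ j, DifferentiableOn ℂ (f j) (Metric.ball c r)) :
    DifferentiableOn ℂ (fun x : (Fin n → ℂ) × (Fin n → ℂ) =>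
      ∑ j, (ε j : ℂ) * (f j x.1 * star (f j (star x.2))))
      (Metric.ball c r ×ˢ Metric.ball (star c) r) := by
  apply DifferentiableOn.fun_sum
  intro j _
  apply DifferentiableOn.const_mul
  apply DifferentiableOn.mul
  · apply (hf j).comp differentiable_fst.differentiableOn
    intro x hx
    exact hx.1
  · have h1 : DifferentiableOn ℂ (fun y => star (f j (star y))) (Metric.ball (star c) r) :=
      starstar Metric.isOpen_ball (hf j) (fun w hw => by
        have := star_mem_ball hw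
        rwa [star_star] at this)
    apply h1.comp differentiable_snd.differentiableOn
    intro x hx
    exact hx.2

/-- polarised identity -/
theorem polar_rep {p : (Fin n → ℂ) → ℝ} {m : ℕ} (ε : Fin m → ℝ) (f : Fin m → (Fin n → ℂ) → ℂ)
    {c : Fin n → ℂ} {r : ℝ} (hr : 0 < r)
    (hf : ∀ j, DifferentiableOn ℂ (f j) (Metric.ball c r))
    {P : (Fin n → ℂ) × (Fin n → ℂ) → ℂ}
    (hP : DifferentiableOn ℂ P (Metric.ball c r ×ˢ Metric.ball (star c) r))
    (hPp : ∀ z ∈ Metric.ball c r, P (z, star z) = (p z : ℂ))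
    (hp : ∀ᶠ z in 𝓝 c, p z = ∑ j, ε j * Complex.normSq (f j z)) :
    ∀ z ∈ Metric.ball c r, ∀ w ∈ Metric.ball (star c) r,
      P (z, w) = ∑ j, (ε j : ℂ) * (f j z * star (f j (star w))) := by
  have hpol := polar (Metric.isOpen_ball.prod Metric.isOpen_ball)
    ((CC.ball c r).prod (CC.ball (star c) r)) (hP.sub (sumStar_diff ε f hf)) (w₀ := c)
    ⟨mem_ball_self hr, mem_ball_self hr⟩ (by
      filter_upwards [Metric.ball_mem_nhds c hr, hp] with z hz hpz
      show P (z, star z) - ∑ j, (ε j : ℂ) * (f j z * star (f j (star (star z)))) = 0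
      rw [star_star, hPp z hz, hpz, sub_eq_zero, Complex.ofReal_sum]
      refine Finset.sum_congr rfl fun j _ => ?_
      rw [Complex.ofReal_mul, nsq])
  intro z hz w hw
  exact sub_eq_zero.1 (hpol (z, w) ⟨hz, hw⟩)

/-- local extension of a representation around a point of the ball -/
theorem extend_local {p : (Fin n → ℂ) → ℝ} {m : ℕ} {ρ δ : ℝ} (hδ : 0 < δ)
    (ε : Fin m → ℝ) (hε : ∀ j, ε j = 1 ∨ ε j = -1) (f : Fin m → (Fin n → ℂ) → ℂ)
    (hf : Rep p m ρ ε f)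
    (hind : ∀ l : Fin m → ℂ, (∀ z ∈ Metric.ball 0 ρ, ∑ j, l j * f j z = 0) → l = 0)
    {c : Fin n → ℂ} (hc : c ∈ Metric.ball 0 ρ) (hcx : HasCx p c δ) :
    ∃ g : Fin m → (Fin n → ℂ) → ℂ, (∀ j, DifferentiableOn ℂ (g j) (Metric.ball c δ)) ∧
      (∀ j, ∀ z ∈ Metric.ball c δ ∩ Metric.ball 0 ρ, g j z = f j z) ∧
      ∀ z ∈ Metric.ball c δ, p z = ∑ j, ε j * Complex.normSq (g j z) := by
  obtain ⟨P, hP, hPp⟩ := hcx
  obtain ⟨hfd, hfp⟩ := hf
  obtain ⟨η₀, hη₀, hη₀sub⟩ := Metric.isOpen_iff.1 (Metric.isOpen_ball (x := (0 : Fin n → ℂ))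
    (ε := ρ)) c hc
  let η := min η₀ δ
  have hη : 0 < η := lt_min hη₀ hδ
  have hηρ : Metric.ball c η ⊆ Metric.ball 0 ρ :=
    (Metric.ball_subset_ball (min_le_left _ _)).trans hη₀sub
  have hηδ : Metric.ball c η ⊆ Metric.ball c δ := Metric.ball_subset_ball (min_le_right _ _)
  have hηδ' : Metric.ball (star c) η ⊆ Metric.ball (star c) δ :=
    Metric.ball_subset_ball (min_le_right _ _)
  have hpη : ∀ᶠ z in 𝓝 c, p z = ∑ j, ε j * Complex.normSq (f j z) := by
    filter_upwards [Metric.isOpen_ball.mem_nhds hc] with z hz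
    exact hfp z hz
  have hpol := polar_rep ε f hη (fun j => (hfd j).mono hηρ) (hP.mono (prod_mono hηδ hηδ'))
    (fun z hz => hPp z (hηδ hz)) hpη
  -- points
  obtain ⟨w, hw, hdet⟩ : ∃ w : Fin m → Fin n → ℂ, (∀ i, w i ∈ Metric.ball c η) ∧
      (Matrix.of fun j i => f j (w i)).det ≠ 0 := by
    by_contra hcon
    push Not at hcon
    obtain ⟨l, hl, hs⟩ := dep_of_minors f _ hcon
    apply hl
    apply hind
    apply ident Metric.isOpen_ball (CC.ball _ _) _ hc
    · filter_upwards [Metric.ball_mem_nhds c hη] with z hz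
      exact hs z hz
    · apply DifferentiableOn.fun_sum
      intro j _
      exact (hfd j).const_mul _
  let H : Matrix (Fin m) (Fin m) ℂ := (Matrix.of fun j i => f j (w i)).map (starRingEnd ℂ)
  have hH : IsUnit H.det := by
    apply isUnit_iff_ne_zero.2
    have h1 : H.det = starRingEnd ℂ (Matrix.of fun j i => f j (w i)).det :=
      (RingHom.map_det (starRingEnd ℂ) _).symm
    rw [h1]
    simpa using hdet
  have hswm : ∀ i, star (w i) ∈ Metric.ball (star c) δ := fun i => hηδ' (star_mem_ball (hw i))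
  let g : Fin m → (Fin n → ℂ) → ℂ := fun j z => (ε j : ℂ) * ∑ i, P (z, star (w i)) * H⁻¹ i j
  have hgd : ∀ j, DifferentiableOn ℂ (g j) (Metric.ball c δ) := by
    intro j
    apply DifferentiableOn.const_mul
    apply DifferentiableOn.fun_sum
    intro i _
    apply DifferentiableOn.mul_const
    apply hP.comp
    · fun_prop
    · intro z hz
      exact ⟨hz, hswm i⟩
  have hgf : ∀ j, ∀ z ∈ Metric.ball c η, g j z = f j z := by
    intro j z hz
    have h1 : Matrix.vecMul (fun j => (ε j : ℂ) * f j z) H = fun i => P (z, star (w i)) := by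
      funext i
      rw [hpol z hz _ (star_mem_ball (hw i)), star_star]
      show ∑ j, ((ε j : ℂ) * f j z) * star (f j (w i)) = _
      exact Finset.sum_congr rfl fun j _ => by ring
    have h2 : Matrix.vecMul (Matrix.vecMul (fun j => (ε j : ℂ) * f j z) H) H⁻¹ =
        fun j => (ε j : ℂ) * f j z := by
      rw [Matrix.vecMul_vecMul, Matrix.mul_nonsing_inv _ hH, Matrix.vecMul_one]
    have h3 := congrFun h2 j
    rw [h1] at h3
    have h4 : g j z = (ε j : ℂ) * ((ε j : ℂ) * f j z) := by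
      rw [← h3]
      rfl
    rw [h4]
    rcases hε j with h | h <;> rw [h] <;> push_cast <;> ring
  have hgf' : ∀ j, ∀ z ∈ Metric.ball c δ ∩ Metric.ball 0 ρ, g j z = f j z := by
    intro j z hz
    have := ident (Metric.isOpen_ball.inter Metric.isOpen_ball)
      ((CC.ball c δ).inter (CC.ball 0 ρ)) (((hgd j).mono inter_subset_left).sub
        ((hfd j).mono inter_subset_right)) ⟨mem_ball_self hδ, hc⟩ (by
        filter_upwards [Metric.ball_mem_nhds c hη] with z hz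
        show g j z - f j z = 0
        rw [hgf j z hz, sub_self]) z hz
    exact sub_eq_zero.1 this
  refine ⟨g, hgd, hgf', ?_⟩
  have hpg : ∀ᶠ z in 𝓝 c, p z = ∑ j, ε j * Complex.normSq (g j z) := by
    filter_upwards [hpη, Metric.ball_mem_nhds c hη] with z hz1 hz2
    rw [hz1]
    exact Finset.sum_congr rfl fun j _ => by rw [hgf j z hz2]
  have hpol2 := polar_rep ε g hδ hgd hP hPp hpg
  intro z hz
  apply Complex.ofReal_injective
  rw [← hPp z hz, hpol2 z hz _ (star_mem_ball hz), star_star, Complex.ofReal_sum]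
  refine Finset.sum_congr rfl fun j _ => ?_
  rw [Complex.ofReal_mul, nsq]

/-- extension of a representation to a larger ball -/
theorem extend {p : (Fin n → ℂ) → ℝ} {m : ℕ} {ρ δ : ℝ} (hρ : 0 < ρ) (hδ : 0 < δ)
    (ε : Fin m → ℝ) (hε : ∀ j, ε j = 1 ∨ ε j = -1) (f : Fin m → (Fin n → ℂ) → ℂ)
    (hf : Rep p m ρ ε f)
    (hind : ∀ l : Fin m → ℂ, (∀ z ∈ Metric.ball 0 ρ, ∑ j, l j * f j z = 0) → l = 0)
    (hcx : ∀ c ∈ Metric.ball (0 : Fin n → ℂ) ρ, HasCx p c δ) :
    ∃ f' : Fin m → (Fin n → ℂ) → ℂ, Rep p m (ρ + δ) ε f' ∧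
      ∀ j, ∀ z ∈ Metric.ball 0 ρ, f' j z = f j z := by
  have hloc : ∀ c ∈ Metric.ball (0 : Fin n → ℂ) ρ, ∃ g : Fin m → (Fin n → ℂ) → ℂ,
      (∀ j, DifferentiableOn ℂ (g j) (Metric.ball c δ)) ∧
      (∀ j, ∀ z ∈ Metric.ball c δ ∩ Metric.ball 0 ρ, g j z = f j z) ∧
      ∀ z ∈ Metric.ball c δ, p z = ∑ j, ε j * Complex.normSq (g j z) := fun c hc =>
    extend_local hδ ε hε f hf hind hc (hcx c hc)
  choose! g hgd hgf hgp using hloc
  -- compatibility
  have hcomp : ∀ c ∈ Metric.ball (0 : Fin n → ℂ) ρ, ∀ c' ∈ Metric.ball (0 : Fin n → ℂ) ρ, ∀ j,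
      ∀ z ∈ Metric.ball c δ ∩ Metric.ball c' δ, g c j z = g c' j z := by
    intro c hc c' hc' j z hz
    let μ : Fin n → ℂ := c + ((1 / 2 : ℝ) : ℂ) • (c' - c)
    have hcc' : ‖c' - c‖ < 2 * δ := by
      have h1 := hz.1
      have h2 := hz.2
      rw [mem_ball_iff_norm] at h1 h2
      calc ‖c' - c‖ = ‖(z - c) - (z - c')‖ := by congr 1; abel
        _ ≤ ‖z - c‖ + ‖z - c'‖ := norm_sub_le _ _
        _ < 2 * δ := by linarith
    have hμρ : μ ∈ Metric.ball (0 : Fin n → ℂ) ρ :=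
      CC.ball 0 ρ c hc c' hc' (1 / 2) (by norm_num) (by norm_num)
    have hμc : μ ∈ Metric.ball c δ := by
      rw [mem_ball_iff_norm]
      have : μ - c = ((1 / 2 : ℝ) : ℂ) • (c' - c) := by simp only [μ]; abel
      rw [this, norm_smul, Complex.norm_real]
      norm_num
      linarith
    have hμc' : μ ∈ Metric.ball c' δ := by
      rw [mem_ball_iff_norm]
      have : μ - c' = -(((1 / 2 : ℝ) : ℂ) • (c' - c)) := by
        simp only [μ]
        push_cast
        module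
      rw [this, norm_neg, norm_smul, Complex.norm_real]
      norm_num
      linarith
    have := ident (Metric.isOpen_ball.inter Metric.isOpen_ball)
      ((CC.ball c δ).inter (CC.ball c' δ)) (((hgd c hc j).mono inter_subset_left).sub
        ((hgd c' hc' j).mono inter_subset_right)) ⟨hμc, hμc'⟩ (by
        filter_upwards [Metric.isOpen_ball.mem_nhds hμc, Metric.isOpen_ball.mem_nhds hμc',
          Metric.isOpen_ball.mem_nhds hμρ] with x hx1 hx2 hx3
        show g c j x - g c' j x = 0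
        rw [hgf c hc j x ⟨hx1, hx3⟩, hgf c' hc' j x ⟨hx2, hx3⟩, sub_self]) z hz
    exact sub_eq_zero.1 this
  -- the selected centre
  let τ : (Fin n → ℂ) → Fin n → ℂ := fun z => ((ρ / (ρ + δ) : ℝ) : ℂ) • z
  have hτ1 : ∀ z ∈ Metric.ball (0 : Fin n → ℂ) (ρ + δ), τ z ∈ Metric.ball (0 : Fin n → ℂ) ρ := by
    intro z hz
    rw [mem_ball_zero_iff] at *
    simp only [τ]
    rw [norm_smul, Complex.norm_real, Real.norm_of_nonneg (by positivity), div_mul_eq_mul_div,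
      div_lt_iff₀ (by positivity)]
    exact mul_lt_mul_of_pos_left hz hρ
  have hτ2 : ∀ z ∈ Metric.ball (0 : Fin n → ℂ) (ρ + δ), z ∈ Metric.ball (τ z) δ := by
    intro z hz
    rw [mem_ball_zero_iff] at hz
    rw [mem_ball_iff_norm]
    have h1 : z - τ z = ((δ / (ρ + δ) : ℝ) : ℂ) • z := by
      have h2 : ((δ / (ρ + δ) : ℝ) : ℂ) = 1 - ((ρ / (ρ + δ) : ℝ) : ℂ) := by
        have : (δ / (ρ + δ) : ℝ) = 1 - ρ / (ρ + δ) := by
          field_simp
          ring
        rw [this]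
        push_cast
        ring
      rw [h2]
      simp only [τ]
      module
    rw [h1, norm_smul, Complex.norm_real, Real.norm_of_nonneg (by positivity), div_mul_eq_mul_div,
      div_lt_iff₀ (by positivity)]
    exact mul_lt_mul_of_pos_left hz hδ
  refine ⟨fun j z => g (τ z) j z, ⟨?_, ?_⟩, ?_⟩
  · intro j z₁ hz₁
    apply DifferentiableAt.differentiableWithinAt
    have h1 : DifferentiableAt ℂ (g (τ z₁) j) z₁ :=
      (hgd _ (hτ1 z₁ hz₁) j z₁ (hτ2 z₁ hz₁)).differentiableAt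
        (Metric.isOpen_ball.mem_nhds (hτ2 z₁ hz₁))
    apply h1.congr_of_eventuallyEq
    filter_upwards [Metric.isOpen_ball.mem_nhds (hτ2 z₁ hz₁), Metric.isOpen_ball.mem_nhds hz₁]
      with z hza hzb
    exact hcomp _ (hτ1 z hzb) _ (hτ1 z₁ hz₁) j z ⟨hτ2 z hzb, hza⟩
  · intro z hz
    exact hgp _ (hτ1 z hz) z (hτ2 z hz)
  · intro j z hz
    have hz' : z ∈ Metric.ball (0 : Fin n → ℂ) (ρ + δ) :=
      Metric.ball_subset_ball (by linarith) hz
    exact hgf _ (hτ1 z hz') j z ⟨hτ2 z hz', hz⟩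

/-- extension to any radius -/
theorem extend_to {p : (Fin n → ℂ) → ℝ} (hp : AnalyticOnNhd ℝ p Set.univ) {m : ℕ} {ρ₀ : ℝ}
    (hρ₀ : 0 < ρ₀) (ε : Fin m → ℝ) (hε : ∀ j, ε j = 1 ∨ ε j = -1)
    (f : Fin m → (Fin n → ℂ) → ℂ) (hf : Rep p m ρ₀ ε f)
    (hind : ∀ l : Fin m → ℂ, (∀ z ∈ Metric.ball 0 ρ₀, ∑ j, l j * f j z = 0) → l = 0)
    (R : ℝ) (hR : ρ₀ ≤ R) :
    ∃ f' : Fin m → (Fin n → ℂ) → ℂ, Rep p m R ε f' ∧
      ∀ j, ∀ z ∈ Metric.ball 0 ρ₀, f' j z = f j z := by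
  obtain ⟨δ, hδ, hcx⟩ := uniform_cx hp R
  have key : ∀ q : ℕ, ρ₀ + q * δ ≤ R + δ → ∃ f' : Fin m → (Fin n → ℂ) → ℂ,
      Rep p m (ρ₀ + q * δ) ε f' ∧ ∀ j, ∀ z ∈ Metric.ball 0 ρ₀, f' j z = f j z := by
    intro q
    induction q with
    | zero =>
      intro _
      refine ⟨f, ?_, fun _ _ _ => rfl⟩
      simpa using hf
    | succ q ih =>
      intro hq
      push_cast at hq
      obtain ⟨f₁, hf₁, he₁⟩ := ih (by nlinarith)
      have hpos : 0 < ρ₀ + q * δ := by positivity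
      obtain ⟨f₂, hf₂, he₂⟩ := extend hpos hδ ε hε f₁ hf₁ (by
        intro l hl
        apply hind
        intro z hz
        have h1 := hl z (Metric.ball_subset_ball (by
          have : 0 ≤ (q : ℝ) * δ := by positivity
          linarith) hz)
        rw [← h1]
        exact Finset.sum_congr rfl fun j _ => by rw [he₁ j z hz]) (by
        intro c hc
        apply hcx
        rw [mem_ball_zero_iff] at hc
        rw [mem_closedBall_zero_iff]
        linarith)
      refine ⟨f₂, ?_, ?_⟩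
      · have e : ρ₀ + ((q + 1 : ℕ) : ℝ) * δ = ρ₀ + q * δ + δ := by
          push_cast
          ring
        rw [e]
        exact hf₂
      · intro j z hz
        rw [he₂ j z (Metric.ball_subset_ball (by
          have : 0 ≤ (q : ℝ) * δ := by positivity
          linarith) hz), he₁ j z hz]
  let q := ⌈(R - ρ₀) / δ⌉₊
  have hq1 : (R - ρ₀) / δ ≤ q := Nat.le_ceil _
  have hq2 : (q : ℝ) < (R - ρ₀) / δ + 1 := Nat.ceil_lt_add_one (div_nonneg (by linarith) hδ.le)
  have hq1' : R ≤ ρ₀ + q * δ := by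
    rw [div_le_iff₀ hδ] at hq1
    linarith
  have hq2' : ρ₀ + q * δ ≤ R + δ := by
    have h1 : (q : ℝ) * δ ≤ ((R - ρ₀) / δ + 1) * δ := mul_le_mul_of_nonneg_right hq2.le hδ.le
    have h2 : ((R - ρ₀) / δ + 1) * δ = R - ρ₀ + δ := by field_simp
    linarith
  obtain ⟨f', ⟨hf1, hf2⟩, he⟩ := key q hq2'
  exact ⟨f', ⟨fun j => (hf1 j).mono (Metric.ball_subset_ball hq1'),
    fun z hz => hf2 z (Metric.ball_subset_ball hq1' hz)⟩, he⟩

/-- global representation -/
theorem global_rep {p : (Fin n → ℂ) → ℝ} (hp : AnalyticOnNhd ℝ p Set.univ) {m : ℕ} {ρ₀ : ℝ}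
    (hρ₀ : 0 < ρ₀) (ε : Fin m → ℝ) (hε : ∀ j, ε j = 1 ∨ ε j = -1)
    (f : Fin m → (Fin n → ℂ) → ℂ) (hf : Rep p m ρ₀ ε f)
    (hind : ∀ l : Fin m → ℂ, (∀ z ∈ Metric.ball 0 ρ₀, ∑ j, l j * f j z = 0) → l = 0) :
    ∃ F : Fin m → (Fin n → ℂ) → ℂ, (∀ j, Differentiable ℂ (F j)) ∧
      ∀ z, p z = ∑ j, ε j * Complex.normSq (F j z) := by
  have hN : ∀ N : ℕ, ∃ f' : Fin m → (Fin n → ℂ) → ℂ, Rep p m (ρ₀ + N) ε f' ∧
      ∀ j, ∀ z ∈ Metric.ball 0 ρ₀, f' j z = f j z := fun N =>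
    extend_to hp hρ₀ ε hε f hf hind _ (by
      have : (0 : ℝ) ≤ N := Nat.cast_nonneg N
      linarith)
  choose g hg he using hN
  have hmem : ∀ z : Fin n → ℂ, z ∈ Metric.ball (0 : Fin n → ℂ) (ρ₀ + ⌈‖z‖⌉₊) := by
    intro z
    rw [mem_ball_zero_iff]
    have := Nat.le_ceil ‖z‖
    linarith
  have hcomp : ∀ N N' j, ∀ z ∈ Metric.ball (0 : Fin n → ℂ) (ρ₀ + (N : ℕ)) ∩
      Metric.ball (0 : Fin n → ℂ) (ρ₀ + (N' : ℕ)), g N j z = g N' j z := by
    intro N N' j z hz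
    have h0 : (0 : Fin n → ℂ) ∈ Metric.ball (0 : Fin n → ℂ) (ρ₀ + (N : ℕ)) ∩
        Metric.ball (0 : Fin n → ℂ) (ρ₀ + (N' : ℕ)) :=
      ⟨mem_ball_self (by positivity), mem_ball_self (by positivity)⟩
    have := ident (Metric.isOpen_ball.inter Metric.isOpen_ball)
      ((CC.ball 0 _).inter (CC.ball 0 _)) ((((hg N).1 j).mono inter_subset_left).sub
        (((hg N').1 j).mono inter_subset_right)) h0 (by
        filter_upwards [Metric.ball_mem_nhds (0 : Fin n → ℂ) hρ₀] with x hx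
        show g N j x - g N' j x = 0
        rw [he N j x hx, he N' j x hx, sub_self]) z hz
    exact sub_eq_zero.1 this
  refine ⟨fun j z => g ⌈‖z‖⌉₊ j z, ?_, ?_⟩
  · intro j z₁
    have h1 : DifferentiableAt ℂ (g ⌈‖z₁‖⌉₊ j) z₁ :=
      ((hg _).1 j z₁ (hmem z₁)).differentiableAt (Metric.isOpen_ball.mem_nhds (hmem z₁))
    apply h1.congr_of_eventuallyEq
    filter_upwards [Metric.isOpen_ball.mem_nhds (hmem z₁)] with z hz
    exact hcomp _ _ j z ⟨hmem z, hz⟩
  · intro z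
    exact (hg _).2 z (hmem z)

/-- padding with zeros -/
theorem pad {X : Type*} [NormedAddCommGroup X] [NormedSpace ℂ X] {d c : ℕ} (h : d ≤ c) (p : X → ℝ)
    (ε : Fin d → ℝ) (f : Fin d → X → ℂ) (hε : ∀ j, ε j = 1 ∨ ε j = -1)
    (hf : ∀ j, Differentiable ℂ (f j)) (hp : ∀ z, p z = ∑ j, ε j * Complex.normSq (f j z)) :
    ∃ (ε : Fin c → ℝ) (f : Fin c → X → ℂ), (∀ j, ε j = 1 ∨ ε j = -1) ∧
      (∀ j, Differentiable ℂ (f j)) ∧ ∀ z, p z = ∑ j, ε j * Complex.normSq (f j z) := by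
  obtain ⟨e, rfl⟩ := Nat.exists_eq_add_of_le h
  refine ⟨Fin.append ε (fun _ => 1), Fin.append f (fun _ _ => 0), ?_, ?_, ?_⟩
  · intro j
    refine Fin.addCases (fun i => ?_) (fun i => ?_) j
    · rw [Fin.append_left]; exact hε i
    · rw [Fin.append_right]; exact Or.inl rfl
  · intro j
    refine Fin.addCases (fun i => ?_) (fun i => ?_) j
    · rw [Fin.append_left]; exact hf i
    · rw [Fin.append_right]; exact differentiable_const _
  · intro z
    rw [Fin.sum_univ_add, hp z]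
    simp [Fin.append_left, Fin.append_right]

/-- the main theorem -/
theorem main {k : ℕ} (hn : 2 ≤ n) (p : (Fin n → ℂ) → ℝ) (hp : AnalyticOnNhd ℝ p Set.univ)
    (hyp : Hy n k p) :
    ∃ (ε : Fin (NN (NN k)) → ℝ) (f : Fin (NN (NN k)) → (Fin n → ℂ) → ℂ),
      (∀ j, ε j = 1 ∨ ε j = -1) ∧ (∀ j, Differentiable ℂ (f j)) ∧
      ∀ z, p z = ∑ j, ε j * Complex.normSq (f j z) := by
  have hi : (⟨0, by omega⟩ : Fin n) ≠ ⟨1, by omega⟩ := by
    intro h
    have := congrArg Fin.val h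
    simp at this
  obtain ⟨r, hr, P, hP, hPp⟩ := complexify (hp 0 (mem_univ _))
  have hrank := rank_bound hi hn hyp hr hP hPp
  have hloc := local_rep hr hP hPp hrank
  obtain ⟨d, hd, ε, f, hε, hf, hind⟩ := indep_rep hr hloc
  obtain ⟨F, hF, hFp⟩ := global_rep hp hr ε hε f hf hind
  exact pad hd p ε F hε hF hFp

end Run7.h682.HR
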