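import Pool.Agent.Run7.h682.HR.Ker

set_option autoImplicit false

open Set Metric Filter Topology

namespace Run7.h682.HR

variable {n : ℕ}

/-- the hypothesis of the problem -/
def Hy (n k : ℕ) (p : (Fin n → ℂ) → ℝ) : Prop :=
  ∀ (a : Fin n → ℂ) (L : (Fin (n - 1) → ℂ) →ₗ[ℂ] (Fin n → ℂ)),
    Function.Injective L →
    ∃ (ε : Fin k → ℝ) (g : Fin k → (Fin (n - 1) → ℂ) → ℂ),
      (∀ j, ε j = 1 ∨ ε j = -1) ∧ (∀ j, Differentiable ℂ (g j)) ∧
      ∀ x, p (a + L x) = ∑ j, ε j * Complex.normSq (g j x)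

/-- combination map -/
noncomputable def cm {m : ℕ} (v : Fin m → Fin n → ℂ) : (Fin m → ℂ) →L[ℂ] (Fin n → ℂ) :=
  ∑ l, (ContinuousLinearMap.proj (R := ℂ) (φ := fun _ : Fin m => ℂ) l).smulRight (v l)

theorem cm_apply {m : ℕ} (v : Fin m → Fin n → ℂ) (x : Fin m → ℂ) :
    cm v x = ∑ l, x l • v l := by
  simp [cm]

theorem cm_star {m : ℕ} (v : Fin m → Fin n → ℂ) (x : Fin m → ℂ) :
    cm (star v) (star x) = star (cm v x) := by
  simp [cm_apply, star_sum, star_smul]

/-- evaluation at parameters -/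
noncomputable def em {m : ℕ} (x : Fin m → ℂ) :
    ((Fin n → ℂ) × (Fin m → Fin n → ℂ)) →L[ℂ] (Fin n → ℂ) :=
  ContinuousLinearMap.fst ℂ _ _ + ∑ l, x l •
    (ContinuousLinearMap.proj (R := ℂ) (φ := fun _ : Fin m => (Fin n → ℂ)) l).comp
      (ContinuousLinearMap.snd ℂ _ _)

theorem em_apply {m : ℕ} (x : Fin m → ℂ) (a : Fin n → ℂ) (v : Fin m → Fin n → ℂ) :
    em x (a, v) = a + cm v x := by
  simp [em, cm_apply]

theorem det_diff {W : Type*} [NormedAddCommGroup W] [NormedSpace ℂ W] {Ω : Set W} {m : ℕ}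
    (M : W → Matrix (Fin m) (Fin m) ℂ) (h : ∀ i j, DifferentiableOn ℂ (fun w => M w i j) Ω) :
    DifferentiableOn ℂ (fun w => (M w).det) Ω := by
  simp_rw [Matrix.det_apply']
  apply DifferentiableOn.fun_sum
  intro σ _
  apply DifferentiableOn.const_mul
  have hind : ∀ s : Finset (Fin m), DifferentiableOn ℂ (fun w => ∏ i ∈ s, M w (σ i) i) Ω := by
    intro s
    induction s using Finset.induction_on with
    | empty => simp
    | insert a s ha ih =>
      simp_rw [Finset.prod_insert ha]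
      exact (h _ _).mul ih
  exact hind _

theorem low_rank_det {m k : ℕ} (hk : k < m) (A : Fin m → Fin k → ℂ) (C : Fin k → Fin m → ℂ) :
    (Matrix.of fun i j => ∑ l, A i l * C l j).det = 0 := by
  have hr : Module.rank ℂ (Fin k → ℂ) ≤ ((m - 1 : ℕ) : Cardinal) := by
    rw [rank_fin_fun]
    exact_mod_cast (by omega : k ≤ m - 1)
  obtain ⟨m', rfl⟩ : ∃ m', m = m' + 1 := ⟨m - 1, by omega⟩
  obtain ⟨l, hl, hs⟩ := dep_of_rank_le m' hr A
  apply det_zero_of_row_dep _ l hl
  intro j
  have h1 : ∀ q : Fin k, ∑ i, l i * A i q = 0 := fun q => by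
    have := congrFun hs q
    simpa [Finset.sum_apply] using this
  calc ∑ i, l i * (Matrix.of fun i j => ∑ q, A i q * C q j) i j
      = ∑ i, ∑ q, (l i * A i q) * C q j := by
        refine Finset.sum_congr rfl fun i _ => ?_
        rw [Matrix.of_apply, Finset.mul_sum]
        exact Finset.sum_congr rfl fun q _ => by ring
    _ = ∑ q, (∑ i, l i * A i q) * C q j := by
        rw [Finset.sum_comm]
        exact Finset.sum_congr rfl fun q _ => by rw [Finset.sum_mul]
    _ = 0 := by simp [h1]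

section C1
variable {k : ℕ} {p : (Fin n → ℂ) → ℝ} {z₀ : Fin n → ℂ} {r : ℝ}
  {P : (Fin n → ℂ) × (Fin n → ℂ) → ℂ}

theorem star_mem_ball {z : Fin n → ℂ} (hz : z ∈ Metric.ball z₀ r) :
    star z ∈ Metric.ball (star z₀) r := by
  rw [mem_ball_iff_norm] at *
  rwa [← star_sub, norm_star]

/-- the kernel on `(a + span v) × star (a + span v)` has rank at most `k` -/
theorem inner_minors (hyp : Hy n k p)
    (hP : DifferentiableOn ℂ P (Metric.ball z₀ r ×ˢ Metric.ball (star z₀) r))
    (hPp : ∀ z ∈ Metric.ball z₀ r, P (z, star z) = (p z : ℂ))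
    (a : Fin n → ℂ) (v : Fin (n - 1) → Fin n → ℂ) (hv : LinearIndependent ℂ v)
    (ha : a ∈ Metric.ball z₀ r) (X Y : Fin (k + 1) → Fin (n - 1) → ℂ)
    (hX : ∀ i, a + cm v (X i) ∈ Metric.ball z₀ r)
    (hY : ∀ j, star a + cm (star v) (Y j) ∈ Metric.ball (star z₀) r) :
    (Matrix.of fun i j => P (a + cm v (X i), star a + cm (star v) (Y j))).det = 0 := by
  obtain ⟨ε, g, hε, hg, hpg⟩ := hyp a (cm v : (Fin (n - 1) → ℂ) →ₗ[ℂ] (Fin n → ℂ)) (by
    rw [← LinearMap.ker_eq_bot]
    rw [LinearMap.ker_eq_bot']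
    intro x hx
    have h1 : ∑ l, x l • v l = 0 := by
      rw [← cm_apply]
      exact hx
    funext l
    exact Fintype.linearIndependent_iff.1 hv x h1 l)
  let Ω : Set ((Fin (n - 1) → ℂ) × (Fin (n - 1) → ℂ)) :=
    ((fun x => a + cm v x) ⁻¹' Metric.ball z₀ r) ×ˢ
      ((fun y => star a + cm (star v) y) ⁻¹' Metric.ball (star z₀) r)
  have hΩo : IsOpen Ω := by
    apply IsOpen.prod
    · exact Metric.isOpen_ball.preimage (by fun_prop)
    · exact Metric.isOpen_ball.preimage (by fun_prop)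
  have hΩc : CC Ω := ((CC.ball z₀ r).preimage (cm v) a).prod
    ((CC.ball (star z₀) r).preimage (cm (star v)) (star a))
  let G : (Fin (n - 1) → ℂ) × (Fin (n - 1) → ℂ) → ℂ := fun x =>
    P (a + cm v x.1, star a + cm (star v) x.2) -
      ∑ j, (ε j : ℂ) * (g j x.1 * star (g j (star x.2)))
  have hG : DifferentiableOn ℂ G Ω := by
    apply DifferentiableOn.sub
    · apply hP.comp
      · fun_prop
      · intro x hx
        exact hx
    · apply Differentiable.differentiableOn
      apply Differentiable.fun_sum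
      intro j _
      apply Differentiable.const_mul
      apply Differentiable.mul
      · exact (hg j).comp differentiable_fst
      · have h1 : Differentiable ℂ (fun y : Fin (n - 1) → ℂ => star (g j (star y))) := by
          rw [← differentiableOn_univ]
          exact starstar isOpen_univ (hg j).differentiableOn (fun _ _ => mem_univ _)
        exact h1.comp differentiable_snd
  have h0mem : ((0 : Fin (n - 1) → ℂ), star (0 : Fin (n - 1) → ℂ)) ∈ Ω := by
    refine ⟨?_, ?_⟩
    · simpa using ha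
    · simpa using star_mem_ball ha
  have hzero : ∀ᶠ w in 𝓝 (0 : Fin (n - 1) → ℂ), G (w, star w) = 0 := by
    have hc : Tendsto (fun w : Fin (n - 1) → ℂ => a + cm v w) (𝓝 0) (𝓝 a) := by
      have h1 : Continuous (fun w : Fin (n - 1) → ℂ => a + cm v w) := by fun_prop
      have := h1.tendsto 0
      simpa using this
    filter_upwards [hc.eventually (Metric.isOpen_ball.mem_nhds ha)] with w hw
    simp only [G, star_star]
    rw [cm_star, ← star_add, hPp _ hw]
    have := hpg w
    rw [ContinuousLinearMap.coe_coe] at this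
    rw [this]
    push_cast
    rw [sub_eq_zero]
    refine Finset.sum_congr rfl fun j _ => ?_
    rw [← Complex.mul_conj]
    rfl
  have hpol := polar hΩo hΩc hG h0mem hzero
  have hM : (Matrix.of fun i j => P (a + cm v (X i), star a + cm (star v) (Y j))) =
      Matrix.of fun i j => ∑ l, ((ε l : ℂ) * g l (X i)) * star (g l (star (Y j))) := by
    ext i j
    have := hpol (X i, Y j) ⟨hX i, hY j⟩
    simp only [G, sub_eq_zero] at this
    rw [Matrix.of_apply, Matrix.of_apply, this]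
    exact Finset.sum_congr rfl fun l _ => by ring
  rw [hM]
  exact low_rank_det (Nat.lt_succ_self k) (fun i l => (ε l : ℂ) * g l (X i))
    (fun l j => star (g l (star (Y j))))

/-- all pairs of hyperplanes -/
theorem minors_param (hn : 2 ≤ n) (hyp : Hy n k p) (hr : 0 < r)
    (hP : DifferentiableOn ℂ P (Metric.ball z₀ r ×ˢ Metric.ball (star z₀) r))
    (hPp : ∀ z ∈ Metric.ball z₀ r, P (z, star z) = (p z : ℂ))
    (X Y : Fin (k + 1) → Fin (n - 1) → ℂ) (a b : Fin n → ℂ) (v u : Fin (n - 1) → Fin n → ℂ)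
    (hX : ∀ i, a + cm v (X i) ∈ Metric.ball z₀ r)
    (hY : ∀ j, b + cm u (Y j) ∈ Metric.ball (star z₀) r) :
    (Matrix.of fun i j => P (a + cm v (X i), b + cm u (Y j))).det = 0 := by
  let W := (Fin n → ℂ) × (Fin (n - 1) → Fin n → ℂ)
  let Ω₁ : Set W := ⋂ i, (fun w => 0 + em (X i) w) ⁻¹' Metric.ball z₀ r
  let Ω₂ : Set W := ⋂ j, (fun w => 0 + em (Y j) w) ⁻¹' Metric.ball (star z₀) r
  have hΩ₁o : IsOpen Ω₁ := isOpen_iInter_of_finite fun i =>
    Metric.isOpen_ball.preimage (by fun_prop)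
  have hΩ₂o : IsOpen Ω₂ := isOpen_iInter_of_finite fun i =>
    Metric.isOpen_ball.preimage (by fun_prop)
  have hΩo : IsOpen (Ω₁ ×ˢ Ω₂) := hΩ₁o.prod hΩ₂o
  have hΩc : CC (Ω₁ ×ˢ Ω₂) := CC.prod
    (CC.iInter fun i => (CC.ball z₀ r).preimage (em (X i)) 0)
    (CC.iInter fun i => (CC.ball (star z₀) r).preimage (em (Y i)) 0)
  let F : W × W → ℂ := fun w => (Matrix.of fun i j => P (em (X i) w.1, em (Y j) w.2)).det
  have hF : DifferentiableOn ℂ F (Ω₁ ×ˢ Ω₂) := by
    apply det_diff
    intro i j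
    simp only [Matrix.of_apply]
    apply hP.comp
    · fun_prop
    · rintro w ⟨hw1, hw2⟩
      refine ⟨?_, ?_⟩
      · have := mem_iInter.1 hw1 i
        simpa using this
      · have := mem_iInter.1 hw2 j
        simpa using this
  -- base point
  let e : Fin (n - 1) → Fin n → ℂ := fun l => Pi.single (Fin.castLE (Nat.sub_le n 1) l) 1
  have he : LinearIndependent ℂ e := by
    have h1 := (Pi.basisFun ℂ (Fin n)).linearIndependent
    have h2 := h1.comp (Fin.castLE (Nat.sub_le n 1)) (Fin.castLE_injective _)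
    have h3 : e = (Pi.basisFun ℂ (Fin n)) ∘ (Fin.castLE (Nat.sub_le n 1)) := by
      funext l
      simp [e]
    rw [h3]
    exact h2
  have hbase : ∃ s : ℝ, s ≠ 0 ∧
      (((z₀, (s : ℂ) • e) : W), star ((z₀, (s : ℂ) • e) : W)) ∈ Ω₁ ×ˢ Ω₂ := by
    have hc : Continuous (fun s : ℝ => ((((z₀, (s : ℂ) • e) : W), star ((z₀, (s : ℂ) • e) : W)) :
        W × W)) := by
      have h1 : Continuous (fun s : ℝ => ((z₀, (s : ℂ) • e) : W)) := by fun_prop
      exact h1.prodMk h1.star
    have h0 : (((z₀, ((0 : ℝ) : ℂ) • e) : W), star ((z₀, ((0 : ℝ) : ℂ) • e) : W)) ∈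
        Ω₁ ×ˢ Ω₂ := by
      refine ⟨?_, ?_⟩
      · rw [mem_iInter]
        intro i
        simp [em_apply, cm_apply, hr]
      · rw [mem_iInter]
        intro i
        have : star ((z₀, ((0 : ℝ) : ℂ) • e) : W) = (star z₀, 0) := by
          simp [Prod.star_def]
        rw [this]
        simp [em_apply, cm_apply, hr]
    have hev : ∀ᶠ s : ℝ in 𝓝 0,
        (((z₀, (s : ℂ) • e) : W), star ((z₀, (s : ℂ) • e) : W)) ∈ Ω₁ ×ˢ Ω₂ :=
      hc.continuousAt.eventually (hΩo.mem_nhds h0)
    have hev2 : ∀ᶠ s : ℝ in 𝓝[≠] 0, s ≠ 0 ∧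
        (((z₀, (s : ℂ) • e) : W), star ((z₀, (s : ℂ) • e) : W)) ∈ Ω₁ ×ˢ Ω₂ := by
      filter_upwards [hev.filter_mono nhdsWithin_le_nhds, self_mem_nhdsWithin] with s h1 h2
      exact ⟨h2, h1⟩
    exact hev2.exists
  obtain ⟨s, hs, hmem⟩ := hbase
  have hli : LinearIndependent ℂ ((s : ℂ) • e) := by
    rw [Fintype.linearIndependent_iff] at *
    intro l hl i
    have h1 : ∑ i, (l i * s) • e i = 0 := by
      rw [← hl]
      refine Finset.sum_congr rfl fun i _ => ?_
      rw [Pi.smul_apply, smul_smul]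
    have h2 := he _ h1 i
    rcases mul_eq_zero.1 h2 with h | h
    · exact h
    · exact absurd h (by exact_mod_cast hs)
  have hzero : ∀ᶠ w in 𝓝 ((z₀, (s : ℂ) • e) : W), F (w, star w) = 0 := by
    have hc : Continuous (fun w : W => ((w, star w) : W × W)) :=
      continuous_id.prodMk continuous_star
    have e1 : ∀ᶠ w in 𝓝 ((z₀, (s : ℂ) • e) : W), (w, star w) ∈ Ω₁ ×ˢ Ω₂ :=
      hc.continuousAt.eventually (hΩo.mem_nhds hmem)
    have e2 : ∀ᶠ w in 𝓝 ((z₀, (s : ℂ) • e) : W), LinearIndependent ℂ w.2 := by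
      have h1 : Tendsto (fun w : W => w.2) (𝓝 ((z₀, (s : ℂ) • e) : W)) (𝓝 ((s : ℂ) • e)) :=
        continuous_snd.tendsto _
      exact h1.eventually (hli.eventually)
    have e3 : ∀ᶠ w in 𝓝 ((z₀, (s : ℂ) • e) : W), w.1 ∈ Metric.ball z₀ r := by
      have h1 : Tendsto (fun w : W => w.1) (𝓝 ((z₀, (s : ℂ) • e) : W)) (𝓝 z₀) :=
        continuous_fst.tendsto _
      exact h1.eventually (Metric.isOpen_ball.mem_nhds (mem_ball_self hr))
    filter_upwards [e1, e2, e3] with w h1 h2 h3
    obtain ⟨a', v'⟩ := w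
    obtain ⟨h1a, h1b⟩ := h1
    have := inner_minors hyp hP hPp a' v' h2 h3 X Y (by
        intro i
        have := mem_iInter.1 h1a i
        simpa [em_apply] using this) (by
        intro j
        have h5 := mem_iInter.1 h1b j
        have e : star ((a', v') : W) = (star a', star v') := rfl
        rw [e] at h5
        simpa [em_apply] using h5)
    show (Matrix.of fun i j => P (em (X i) (a', v'), em (Y j) (star (a', v')))).det = 0
    have e : star ((a', v') : W) = (star a', star v') := rfl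
    rw [e]
    simp_rw [em_apply]
    exact this
  have hfin := polar hΩo hΩc hF hmem hzero ((a, v), (b, u)) ⟨by
      rw [mem_iInter]
      intro i
      simpa [em_apply] using hX i, by
      rw [mem_iInter]
      intro i
      simpa [em_apply] using hY i⟩
  simp only [F, em_apply] at hfin
  exact hfin

end C1

end Run7.h682.HR
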