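import Pool.Agent.Run7.h682.HR.Dim

set_option autoImplicit false

open Set Metric Filter Topology

namespace Run7.h682.HR

variable {n : ℕ}

/-- the space spanned by the slices of a kernel, extended by zero -/
noncomputable def FQ {Y : Type*} (Q : (Fin n → ℂ) → Y → ℂ) (B : Set (Fin n → ℂ)) (A : Set Y) :
    Submodule ℂ ((Fin n → ℂ) → ℂ) :=
  Submodule.span ℂ ((fun y => B.indicator (fun x => Q x y)) '' A)

theorem FQ_zero {Y : Type*} (Q : (Fin n → ℂ) → Y → ℂ) (B : Set (Fin n → ℂ)) (A : Set Y) :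
    ∀ f ∈ FQ Q B A, ∀ x, x ∉ B → f x = 0 := by
  intro f hf x hx
  induction hf using Submodule.span_induction with
  | mem f hf =>
    obtain ⟨y, _, rfl⟩ := hf
    exact indicator_of_notMem hx _
  | zero => rfl
  | add f g _ _ h1 h2 => rw [Pi.add_apply, h1, h2, add_zero]
  | smul a f _ h1 => rw [Pi.smul_apply, h1, smul_zero]

theorem FQ_diff {Y : Type*} {Q : (Fin n → ℂ) → Y → ℂ} {B : Set (Fin n → ℂ)} {A : Set Y}
    (hd : ∀ y ∈ A, DifferentiableOn ℂ (fun x => Q x y) B) :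
    ∀ f ∈ FQ Q B A, DifferentiableOn ℂ f B := by
  intro f hf
  induction hf using Submodule.span_induction with
  | mem f hf =>
    obtain ⟨y, hy, rfl⟩ := hf
    refine (hd y hy).congr fun x hx => ?_
    exact indicator_of_mem hx _
  | zero => exact differentiableOn_const 0
  | add f g _ _ h1 h2 => exact h1.add h2
  | smul a f _ h1 => exact h1.const_smul a

theorem FQ_rel {Y : Type*} {Q : (Fin n → ℂ) → Y → ℂ} {B : Set (Fin n → ℂ)} {A : Set Y} {m : ℕ}
    (x : Fin m → Fin n → ℂ) (hx : ∀ j, x j ∈ B) (l : Fin m → ℂ)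
    (h : ∀ y ∈ A, ∑ j, l j * Q (x j) y = 0) : ∀ f ∈ FQ Q B A, ∑ j, l j * f (x j) = 0 := by
  intro f hf
  induction hf using Submodule.span_induction with
  | mem f hf =>
    obtain ⟨y, hy, rfl⟩ := hf
    rw [← h y hy]
    refine Finset.sum_congr rfl fun j _ => ?_
    simp only
    rw [indicator_of_mem (hx j)]
  | zero => simp
  | add f g _ _ h1 h2 =>
    have : ∑ j, l j * (f + g) (x j) = ∑ j, l j * f (x j) + ∑ j, l j * g (x j) := by
      rw [← Finset.sum_add_distrib]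
      exact Finset.sum_congr rfl fun j _ => by rw [Pi.add_apply]; ring
    rw [this, h1, h2, add_zero]
  | smul a f _ h1 =>
    have : ∑ j, l j * (a • f) (x j) = a * ∑ j, l j * f (x j) := by
      rw [Finset.mul_sum]
      exact Finset.sum_congr rfl fun j _ => by rw [Pi.smul_apply, smul_eq_mul]; ring
    rw [this, h1, mul_zero]

/-- rank bound for a kernel from rank bounds on parallel hyperplanes -/
theorem kernel_bound {i₀ i₁ : Fin n} (hi : i₀ ≠ i₁) (k : ℕ) {Y : Type*}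
    (Q : (Fin n → ℂ) → Y → ℂ) {B : Set (Fin n → ℂ)} (hB : IsOpen B) (hBc : CC B)
    {o : Fin n → ℂ} (ho : o ∈ B) (A : Set Y)
    (hd : ∀ y ∈ A, DifferentiableOn ℂ (fun x => Q x y) B)
    (H : ∀ (t : ℕ) (c : ℂ) (x : Fin (k + 1) → Fin n → ℂ),
      (∀ j, x j ∈ B ∧ ell i₀ i₁ t (x j) = c) → ∀ y : Fin (k + 1) → Y, (∀ i, y i ∈ A) →
        (Matrix.of fun i j => Q (x i) (y j)).det = 0) :
    Module.rank ℂ (FQ Q B A) ≤ NN k := by
  apply dim_bound hi k (FQ Q B A) B hB hBc (FQ_diff hd) (FQ_zero Q B A) o ho (Finset.range (k + 1))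
    (by simp)
  intro t _
  refine Eventually.of_forall fun c f hf x hx => ?_
  obtain ⟨l, hl, hs⟩ := kl (fun (y : A) j => Q (x j) y) (by
    intro s
    have := H t c x hx (fun j => s j) (fun j => (s j).2)
    rw [← Matrix.det_transpose] at this
    exact this)
  apply det_zero_of_col_dep _ l hl
  intro i
  exact FQ_rel x (fun j => (hx j).1) l (fun y hy => hs ⟨y, hy⟩) (f i) (hf i)

theorem minors_of_rank {Y : Type*} {Q : (Fin n → ℂ) → Y → ℂ} {B : Set (Fin n → ℂ)} {A : Set Y}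
    {N : ℕ} (h : Module.rank ℂ (FQ Q B A) ≤ N) (x : Fin (N + 1) → Fin n → ℂ)
    (hx : ∀ i, x i ∈ B) (y : Fin (N + 1) → Y) (hy : ∀ j, y j ∈ A) :
    (Matrix.of fun i j => Q (x i) (y j)).det = 0 := by
  obtain ⟨l, hl, hs⟩ := dep_of_rank_le N h (fun j =>
    (⟨B.indicator (fun x => Q x (y j)), Submodule.subset_span ⟨y j, hy j, rfl⟩⟩ : FQ Q B A))
  apply det_zero_of_col_dep _ l hl
  intro i
  have h1 := congrArg (fun g : FQ Q B A => (g : (Fin n → ℂ) → ℂ) (x i)) hs
  simp only [Submodule.coe_sum, Submodule.coe_smul, Finset.sum_apply, Pi.smul_apply,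
    indicator_of_mem (hx i), smul_eq_mul, Submodule.coe_zero, Pi.zero_apply] at h1
  exact h1

end Run7.h682.HR
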