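import Pool.Agent.Run7.h682.HR.Pol

set_option autoImplicit false

open Set Metric Filter Topology

namespace Run7.h682.HR

/-- vectors all of whose determinants vanish satisfy a common linear relation -/
theorem kl {S : Type*} {m : ℕ} (Φ : S → Fin m → ℂ)
    (h : ∀ s : Fin m → S, (Matrix.of fun i j => Φ (s i) j).det = 0) :
    ∃ l : Fin m → ℂ, l ≠ 0 ∧ ∀ s, ∑ j, l j * Φ s j = 0 := by
  by_cases htop : Submodule.span ℂ (Set.range Φ) = ⊤
  · exfalso
    obtain ⟨b, hb, hspan, hli⟩ := exists_linearIndependent ℂ (Set.range Φ)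
    rw [htop] at hspan
    have hfin : Fintype b := @Fintype.ofFinite _ hli.finite
    have hcard : Fintype.card b = m := by
      have hB := Module.Basis.mk hli (by rw [Subtype.range_coe]; exact hspan.ge)
      have := Module.finrank_eq_card_basis hB
      rw [Module.finrank_fin_fun] at this
      exact this.symm
    let e : Fin m ≃ b := (Fintype.equivFinOfCardEq hcard).symm
    have hex : ∀ i : Fin m, ∃ s, Φ s = (e i : Fin m → ℂ) := fun i => hb (e i).2
    choose s hs using hex
    have hli2 : LinearIndependent ℂ (fun i => Φ (s i)) := by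
      have h1 := hli.comp e e.injective
      have h2 : (fun i => Φ (s i)) = (Subtype.val ∘ e) := funext hs
      rw [h2]
      exact h1
    have hu : IsUnit (Matrix.of fun i j => Φ (s i) j) :=
      Matrix.linearIndependent_rows_iff_isUnit.1 hli2
    rw [Matrix.isUnit_iff_isUnit_det] at hu
    exact hu.ne_zero (h s)
  · obtain ⟨f, hf, hle⟩ := Submodule.exists_le_ker_of_lt_top _ (lt_top_iff_ne_top.2 htop)
    refine ⟨fun j => f (Pi.single j 1), ?_, ?_⟩
    · intro h0
      apply hf
      apply LinearMap.pi_ext'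
      intro i
      apply LinearMap.ext_ring
      exact congrFun h0 i
    · intro s
      have h1 : f (Φ s) = 0 := hle (Submodule.subset_span ⟨s, rfl⟩)
      rw [LinearMap.pi_apply_eq_sum_univ f (Φ s)] at h1
      rw [← h1]
      refine Finset.sum_congr rfl fun j _ => ?_
      rw [smul_eq_mul, mul_comm]
      have h2 : (Pi.single j 1 : Fin m → ℂ) = fun i => if j = i then 1 else 0 := by
        funext i
        simp [Pi.single_apply, eq_comm]
      show Φ s j * f (Pi.single j 1) = _
      rw [h2]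

theorem dep_of_minors {X : Type*} {m : ℕ} (f : Fin m → X → ℂ) (A : Set X)
    (h : ∀ x : Fin m → X, (∀ j, x j ∈ A) → (Matrix.of fun i j => f i (x j)).det = 0) :
    ∃ l : Fin m → ℂ, l ≠ 0 ∧ ∀ x ∈ A, ∑ i, l i * f i x = 0 := by
  obtain ⟨l, hl, hs⟩ := kl (fun (s : A) i => f i s) (by
    intro s
    have := h (fun j => s j) (fun j => (s j).2)
    rw [← Matrix.det_transpose] at this
    exact this)
  exact ⟨l, hl, fun x hx => hs ⟨x, hx⟩⟩

theorem det_zero_of_row_dep {m : ℕ} (M : Matrix (Fin m) (Fin m) ℂ) (l : Fin m → ℂ) (hl : l ≠ 0)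
    (h : ∀ j, ∑ i, l i * M i j = 0) : M.det = 0 := by
  rw [← Matrix.exists_vecMul_eq_zero_iff]
  refine ⟨l, hl, ?_⟩
  funext j
  exact h j

theorem det_zero_of_col_dep {m : ℕ} (M : Matrix (Fin m) (Fin m) ℂ) (l : Fin m → ℂ) (hl : l ≠ 0)
    (h : ∀ i, ∑ j, l j * M i j = 0) : M.det = 0 := by
  rw [← Matrix.exists_mulVec_eq_zero_iff]
  refine ⟨l, hl, ?_⟩
  funext i
  show ∑ j, M i j * l j = 0
  rw [← h i]
  exact Finset.sum_congr rfl fun j _ => mul_comm _ _

theorem rank_le_of_dep {M : Type*} [AddCommGroup M] [Module ℂ M] (N : ℕ)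
    (h : ∀ v : Fin (N + 1) → M, ∃ l : Fin (N + 1) → ℂ, l ≠ 0 ∧ ∑ i, l i • v i = 0) :
    Module.rank ℂ M ≤ N := by
  apply rank_le
  intro s hs
  by_contra hcon
  push Not at hcon
  have hle : N + 1 ≤ s.card := hcon
  let e := s.equivFin
  let v : Fin (N + 1) → M := fun i => (e.symm (Fin.castLE hle i) : M)
  have hli : LinearIndependent ℂ v := by
    have := hs.comp (fun i : Fin (N + 1) => e.symm (Fin.castLE hle i))
      (e.symm.injective.comp (Fin.castLE_injective hle))
    exact this
  obtain ⟨l, hl, hsum⟩ := h v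
  apply hl
  funext i
  exact Fintype.linearIndependent_iff.1 hli l hsum i

theorem dep_of_rank_le {M : Type*} [AddCommGroup M] [Module ℂ M] (N : ℕ)
    (h : Module.rank ℂ M ≤ N) (v : Fin (N + 1) → M) :
    ∃ l : Fin (N + 1) → ℂ, l ≠ 0 ∧ ∑ i, l i • v i = 0 := by
  by_cases hli : LinearIndependent ℂ v
  · exfalso
    have h1 := hli.cardinal_lift_le_rank
    rw [Cardinal.mk_fin] at h1
    have h3 := h1.trans (Cardinal.lift_le.2 h)
    simp only [Cardinal.lift_natCast] at h3
    have : N + 1 ≤ N := by exact_mod_cast h3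
    omega
  · rw [Fintype.not_linearIndependent_iff] at hli
    obtain ⟨g, hg, i, hi⟩ := hli
    exact ⟨g, fun h0 => hi (by rw [h0]; rfl), hg⟩

end Run7.h682.HR
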