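import Pool.Agent.Run7.h682.HR.Hyp
import Pool.Agent.Run7.h682.HR.Diag

set_option autoImplicit false

open Set Metric Filter Topology

namespace Run7.h682.HR

variable {n : ℕ}

theorem hyper_param {i₀ i₁ : Fin n} (hi : i₀ ≠ i₁) (t : ℕ) :
    ∃ v : Fin (n - 1) → Fin n → ℂ, ∀ z, ell i₀ i₁ t z = 0 → ∃ x, z = cm v x := by
  let l : (Fin n → ℂ) →ₗ[ℂ] ℂ :=
    { toFun := ell i₀ i₁ t
      map_add' := fun x y => by simp only [ell, Pi.add_apply]; ring
      map_smul' := fun a x => by simp only [ell, Pi.smul_apply, smul_eq_mul, RingHom.id_apply]; ring }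
  have hl1 : l (Pi.single i₀ 1) = 1 := by
    show ell i₀ i₁ t (Pi.single i₀ 1) = 1
    simp [ell, hi.symm]
  have hsurj : Function.Surjective l := by
    intro c
    refine ⟨c • Pi.single i₀ 1, ?_⟩
    rw [map_smul, hl1, smul_eq_mul, mul_one]
  have hfr : Module.finrank ℂ (LinearMap.ker l) = n - 1 := by
    have h1 := l.finrank_range_add_finrank_ker
    rw [LinearMap.range_eq_top.2 hsurj, finrank_top, Module.finrank_self,
      Module.finrank_fin_fun] at h1
    omega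
  let b := Module.finBasisOfFinrankEq ℂ (LinearMap.ker l) hfr
  refine ⟨fun j => (b j : Fin n → ℂ), fun z hz => ?_⟩
  let z' : LinearMap.ker l := ⟨z, hz⟩
  refine ⟨fun j => b.repr z' j, ?_⟩
  rw [cm_apply]
  have h1 := b.sum_repr z'
  have h2 := congrArg (fun w : LinearMap.ker l => (w : Fin n → ℂ)) h1
  simp only [Submodule.coe_sum, Submodule.coe_smul] at h2
  exact h2.symm

section
variable {k : ℕ} {p : (Fin n → ℂ) → ℝ} {z₀ : Fin n → ℂ} {r : ℝ}
  {P : (Fin n → ℂ) × (Fin n → ℂ) → ℂ}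

theorem ell_sub {i₀ i₁ : Fin n} (t : ℕ) (x y : Fin n → ℂ) :
    ell i₀ i₁ t (x - y) = ell i₀ i₁ t x - ell i₀ i₁ t y := by
  simp only [ell, Pi.sub_apply]
  ring

theorem minors_hyper {i₀ i₁ : Fin n} (hi : i₀ ≠ i₁) (hn : 2 ≤ n) (hyp : Hy n k p) (hr : 0 < r)
    (hP : DifferentiableOn ℂ P (Metric.ball z₀ r ×ˢ Metric.ball (star z₀) r))
    (hPp : ∀ z ∈ Metric.ball z₀ r, P (z, star z) = (p z : ℂ))
    (t t' : ℕ) (c c' : ℂ) (x y : Fin (k + 1) → Fin n → ℂ)
    (hx : ∀ i, x i ∈ Metric.ball z₀ r ∧ ell i₀ i₁ t (x i) = c)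
    (hy : ∀ i, y i ∈ Metric.ball (star z₀) r ∧ ell i₀ i₁ t' (y i) = c') :
    (Matrix.of fun i j => P (x i, y j)).det = 0 := by
  obtain ⟨v, hv⟩ := hyper_param hi t
  obtain ⟨u, hu⟩ := hyper_param hi t'
  have hX : ∀ i, ∃ X, x i = x 0 + cm v X := by
    intro i
    obtain ⟨X, hX⟩ := hv (x i - x 0) (by rw [ell_sub, (hx i).2, (hx 0).2, sub_self])
    exact ⟨X, by rw [← hX]; abel⟩
  have hY : ∀ i, ∃ Y, y i = y 0 + cm u Y := by
    intro i
    obtain ⟨Y, hY⟩ := hu (y i - y 0) (by rw [ell_sub, (hy i).2, (hy 0).2, sub_self])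
    exact ⟨Y, by rw [← hY]; abel⟩
  choose X hX using hX
  choose Y hY using hY
  have := minors_param hn hyp hr hP hPp X Y (x 0) (y 0) v u
    (fun i => by rw [← hX]; exact (hx i).1) (fun i => by rw [← hY]; exact (hy i).1)
  simp_rw [← hX, ← hY] at this
  exact this

/-- the complexified kernel has finite rank -/
theorem rank_bound {i₀ i₁ : Fin n} (hi : i₀ ≠ i₁) (hn : 2 ≤ n) (hyp : Hy n k p) (hr : 0 < r)
    (hP : DifferentiableOn ℂ P (Metric.ball z₀ r ×ˢ Metric.ball (star z₀) r))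
    (hPp : ∀ z ∈ Metric.ball z₀ r, P (z, star z) = (p z : ℂ)) :
    Module.rank ℂ (FQ (fun z w => P (z, w)) (Metric.ball z₀ r) (Metric.ball (star z₀) r)) ≤
      NN (NN k) := by
  have hd1 : ∀ w ∈ Metric.ball (star z₀) r,
      DifferentiableOn ℂ (fun z => P (z, w)) (Metric.ball z₀ r) := by
    intro w hw
    apply hP.comp
    · fun_prop
    · intro z hz
      exact ⟨hz, hw⟩
  have hd2 : ∀ z ∈ Metric.ball z₀ r,
      DifferentiableOn ℂ (fun w => P (z, w)) (Metric.ball (star z₀) r) := by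
    intro z hz
    apply hP.comp
    · fun_prop
    · intro w hw
      exact ⟨hz, hw⟩
  apply kernel_bound hi (NN k) (fun z w => P (z, w)) Metric.isOpen_ball (CC.ball _ _)
    (mem_ball_self hr) (Metric.ball (star z₀) r) hd1
  intro t c x hx y hy
  have h1 : Module.rank ℂ (FQ (fun w z => P (z, w)) (Metric.ball (star z₀) r)
      {z | z ∈ Metric.ball z₀ r ∧ ell i₀ i₁ t z = c}) ≤ NN k := by
    apply kernel_bound hi k (fun w z => P (z, w)) Metric.isOpen_ball (CC.ball _ _)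
      (mem_ball_self hr) _ (fun z hz => hd2 z hz.1)
    intro t' c' y hy x hx
    have := minors_hyper hi hn hyp hr hP hPp t t' c c' x y hx hy
    rw [← Matrix.det_transpose] at this
    exact this
  have h2 := minors_of_rank h1 y hy x hx
  rw [← Matrix.det_transpose] at h2
  exact h2

theorem herm (hr : 0 < r)
    (hP : DifferentiableOn ℂ P (Metric.ball z₀ r ×ˢ Metric.ball (star z₀) r))
    (hPp : ∀ z ∈ Metric.ball z₀ r, P (z, star z) = (p z : ℂ)) :
    ∀ z ∈ Metric.ball z₀ r, ∀ w ∈ Metric.ball (star z₀) r,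
      P (z, w) = star (P (star w, star z)) := by
  let P' : (Fin n → ℂ) × (Fin n → ℂ) → ℂ := fun x => P (x.2, x.1)
  have hP' : DifferentiableOn ℂ P' (Metric.ball (star z₀) r ×ˢ Metric.ball z₀ r) := by
    apply hP.comp
    · fun_prop
    · intro x hx
      exact ⟨hx.2, hx.1⟩
  have hs : DifferentiableOn ℂ (fun x => star (P' (star x)))
      (Metric.ball z₀ r ×ˢ Metric.ball (star z₀) r) := by
    apply starstar (Metric.isOpen_ball.prod Metric.isOpen_ball) hP'
    rintro ⟨z, w⟩ ⟨hz, hw⟩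
    refine ⟨star_mem_ball hz, ?_⟩
    have := star_mem_ball hw
    rwa [star_star] at this
  have hpol := polar (Metric.isOpen_ball.prod Metric.isOpen_ball)
    ((CC.ball z₀ r).prod (CC.ball (star z₀) r)) (hP.sub hs) (w₀ := z₀)
    ⟨mem_ball_self hr, mem_ball_self hr⟩ (by
      filter_upwards [Metric.ball_mem_nhds z₀ hr] with z hz
      show P (z, star z) - star (P (star (star z), star z)) = 0
      rw [star_star, hPp z hz, sub_eq_zero]
      exact (Complex.conj_ofReal _).symm)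
  intro z hz w hw
  have := hpol (z, w) ⟨hz, hw⟩
  exact sub_eq_zero.1 this

/-- local representation -/
theorem local_rep {N : ℕ} (hr : 0 < r)
    (hP : DifferentiableOn ℂ P (Metric.ball z₀ r ×ˢ Metric.ball (star z₀) r))
    (hPp : ∀ z ∈ Metric.ball z₀ r, P (z, star z) = (p z : ℂ))
    (hN : Module.rank ℂ (FQ (fun z w => P (z, w)) (Metric.ball z₀ r)
      (Metric.ball (star z₀) r)) ≤ N) :
    ∃ d ≤ N, ∃ (ε : Fin d → ℝ) (f : Fin d → (Fin n → ℂ) → ℂ),
      (∀ j, ε j = 1 ∨ ε j = -1) ∧ (∀ j, DifferentiableOn ℂ (f j) (Metric.ball z₀ r)) ∧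
      ∀ z ∈ Metric.ball z₀ r, p z = ∑ j, ε j * Complex.normSq (f j z) := by
  set F := FQ (fun z w => P (z, w)) (Metric.ball z₀ r) (Metric.ball (star z₀) r) with hFdef
  have hd1 : ∀ w ∈ Metric.ball (star z₀) r,
      DifferentiableOn ℂ (fun z => P (z, w)) (Metric.ball z₀ r) := by
    intro w hw
    apply hP.comp
    · fun_prop
    · intro z hz
      exact ⟨hz, hw⟩
  have hfin : Module.Finite ℂ F := by
    rw [← Module.rank_lt_aleph0_iff]
    exact lt_of_le_of_lt hN (Cardinal.natCast_lt_aleph0)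
  have hdle : Module.finrank ℂ F ≤ N := Module.finrank_le_of_rank_le hN
  set d := Module.finrank ℂ F with hd
  let h := Module.finBasis ℂ F
  have hzero : ∀ l, ∀ x, x ∉ Metric.ball z₀ r → (h l : (Fin n → ℂ) → ℂ) x = 0 :=
    fun l x hx => FQ_zero _ _ _ _ (h l).2 x hx
  have hdf : ∀ l, DifferentiableOn ℂ (h l : (Fin n → ℂ) → ℂ) (Metric.ball z₀ r) :=
    fun l => FQ_diff hd1 _ (h l).2
  -- points with nonzero determinant
  obtain ⟨x, hx, hdet⟩ : ∃ x : Fin d → Fin n → ℂ, (∀ j, x j ∈ Metric.ball z₀ r) ∧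
      (Matrix.of fun i j => (h i : (Fin n → ℂ) → ℂ) (x j)).det ≠ 0 := by
    by_contra hcon
    push Not at hcon
    obtain ⟨l, hl, hs⟩ := dep_of_minors (fun i => (h i : (Fin n → ℂ) → ℂ)) _ hcon
    apply hl
    have h0 : ∑ i, l i • h i = 0 := by
      apply Subtype.ext
      funext x
      rw [Submodule.coe_sum, Finset.sum_apply]
      simp only [Submodule.coe_smul, Pi.smul_apply, smul_eq_mul, Submodule.coe_zero, Pi.zero_apply]
      by_cases hx : x ∈ Metric.ball z₀ r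
      · exact hs x hx
      · exact Finset.sum_eq_zero fun i _ => by rw [hzero i x hx, mul_zero]
    funext i
    exact Fintype.linearIndependent_iff.1 h.linearIndependent l h0 i
  -- coordinates
  have hcoord : ∀ w ∈ Metric.ball (star z₀) r, ∃ c : Fin d → ℂ, ∀ z ∈ Metric.ball z₀ r,
      P (z, w) = ∑ l, c l * (h l : (Fin n → ℂ) → ℂ) z := by
    intro w hw
    let g : F := ⟨(Metric.ball z₀ r).indicator (fun x => P (x, w)),
      Submodule.subset_span ⟨w, hw, rfl⟩⟩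
    refine ⟨fun l => h.repr g l, fun z hz => ?_⟩
    have h1 := congrArg (fun q : F => (q : (Fin n → ℂ) → ℂ) z) (h.sum_repr g)
    simp only [Submodule.coe_sum, Finset.sum_apply, Submodule.coe_smul, Pi.smul_apply,
      smul_eq_mul] at h1
    rw [h1]
    have h2 : (g : (Fin n → ℂ) → ℂ) z = P (z, w) :=
      indicator_of_mem hz (fun x => P (x, w))
    exact h2.symm
  choose! c hc using hcoord
  let H : Matrix (Fin d) (Fin d) ℂ := Matrix.of fun i j => (h i : (Fin n → ℂ) → ℂ) (x j)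
  have hH : IsUnit H.det := isUnit_iff_ne_zero.2 hdet
  have hcw : ∀ w ∈ Metric.ball (star z₀) r, ∀ l, c w l = ∑ i, P (x i, w) * H⁻¹ i l := by
    intro w hw l
    have h1 : Matrix.vecMul (c w) H = fun i => P (x i, w) := by
      funext i
      rw [hc w hw _ (hx i)]
      rfl
    have h2 : Matrix.vecMul (Matrix.vecMul (c w) H) H⁻¹ = c w := by
      rw [Matrix.vecMul_vecMul, Matrix.mul_nonsing_inv _ hH, Matrix.vecMul_one]
    rw [← h2, h1]
    rfl
  let A : Matrix (Fin d) (Fin d) ℂ := Matrix.of fun l l' =>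
    ∑ i, star (c (star (x i)) l') * H⁻¹ i l
  obtain ⟨ε, C, hε, hC⟩ := diag (fun l => (h l : (Fin n → ℂ) → ℂ)) A (Metric.ball z₀ r) p (by
    intro z hz
    have hsz := star_mem_ball hz
    rw [← hPp z hz, hc _ hsz z hz]
    refine Finset.sum_congr rfl fun l _ => ?_
    rw [hcw _ hsz l, Finset.sum_mul]
    have h1 : ∀ i, P (x i, star z) = ∑ l', star (c (star (x i)) l') *
        star ((h l' : (Fin n → ℂ) → ℂ) z) := by
      intro i
      rw [herm hr hP hPp _ (hx i) _ hsz, star_star, hc _ (star_mem_ball (hx i)) z hz, star_sum]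
      exact Finset.sum_congr rfl fun l' _ => star_mul' _ _
    calc ∑ i, P (x i, star z) * H⁻¹ i l * (h l : (Fin n → ℂ) → ℂ) z
        = ∑ i, ∑ l', star (c (star (x i)) l') * H⁻¹ i l * (h l : (Fin n → ℂ) → ℂ) z *
          star ((h l' : (Fin n → ℂ) → ℂ) z) := by
          refine Finset.sum_congr rfl fun i _ => ?_
          rw [h1 i, Finset.sum_mul, Finset.sum_mul]
          exact Finset.sum_congr rfl fun l' _ => by ring
      _ = ∑ l', ∑ i, star (c (star (x i)) l') * H⁻¹ i l * (h l : (Fin n → ℂ) → ℂ) z *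
          star ((h l' : (Fin n → ℂ) → ℂ) z) := Finset.sum_comm
      _ = _ := by
          refine Finset.sum_congr rfl fun l' _ => ?_
          simp only [A, Matrix.of_apply, Finset.sum_mul])
  refine ⟨d, hdle, ε, fun j z => ∑ i, C j i * (h i : (Fin n → ℂ) → ℂ) z, hε, ?_, hC⟩
  intro j
  apply DifferentiableOn.fun_sum
  intro i _
  exact (hdf i).const_mul _

end

/-- representation on a ball around the origin -/
def Rep (p : (Fin n → ℂ) → ℝ) (m : ℕ) (ρ : ℝ) (ε : Fin m → ℝ) (f : Fin m → (Fin n → ℂ) → ℂ) :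
    Prop :=
  (∀ j, DifferentiableOn ℂ (f j) (Metric.ball 0 ρ)) ∧
    ∀ z ∈ Metric.ball 0 ρ, p z = ∑ j, ε j * Complex.normSq (f j z)

/-- a representation with linearly independent functions -/
theorem indep_rep {p : (Fin n → ℂ) → ℝ} {N : ℕ} {ρ₀ : ℝ} (hρ₀ : 0 < ρ₀)
    (h : ∃ d ≤ N, ∃ (ε : Fin d → ℝ) (f : Fin d → (Fin n → ℂ) → ℂ),
      (∀ j, ε j = 1 ∨ ε j = -1) ∧ Rep p d ρ₀ ε f) :
    ∃ d ≤ N, ∃ (ε : Fin d → ℝ) (f : Fin d → (Fin n → ℂ) → ℂ),
      (∀ j, ε j = 1 ∨ ε j = -1) ∧ Rep p d ρ₀ ε f ∧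
      ∀ l : Fin d → ℂ, (∀ z ∈ Metric.ball 0 ρ₀, ∑ j, l j * f j z = 0) → l = 0 := by
  classical
  obtain ⟨d, hdN, hd⟩ := h
  have hex : ∃ d, ∃ (ε : Fin d → ℝ) (f : Fin d → (Fin n → ℂ) → ℂ),
      (∀ j, ε j = 1 ∨ ε j = -1) ∧ Rep p d ρ₀ ε f := ⟨d, hd⟩
  have hmin : ∀ {m : ℕ}, m < Nat.find hex → ¬ ∃ (ε : Fin m → ℝ) (f : Fin m → (Fin n → ℂ) → ℂ),
      (∀ j, ε j = 1 ∨ ε j = -1) ∧ Rep p m ρ₀ ε f := fun hm => Nat.find_min hex hm
  have hspec := Nat.find_spec hex
  have hle : Nat.find hex ≤ d := Nat.find_min' hex hd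
  revert hmin hspec hle
  generalize Nat.find hex = m
  intro hmin hspec hle
  obtain ⟨ε, f, hε, hf, hp⟩ := hspec
  refine ⟨m, hle.trans hdN, ε, f, hε, ⟨hf, hp⟩, ?_⟩
  intro l hl
  by_contra hl0
  rcases m with _ | m
  · exact hl0 (Subsingleton.elim _ _)
  · obtain ⟨ε', s, C, hε', hC⟩ := shrink f ε (Metric.ball 0 ρ₀) p hp l hl0 hl
    apply hmin (Nat.lt_succ_self m)
    refine ⟨ε', fun j z => ∑ i, C j i * f (s i) z, hε', ?_, hC⟩
    intro j
    apply DifferentiableOn.fun_sum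
    intro i _
    exact (hf _).const_mul _

end Run7.h682.HR
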