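import Mathlib

set_option autoImplicit false

open Set Metric Filter Topology

namespace Run7.h682.HR

section A
variable {W : Type*} [NormedAddCommGroup W] [NormedSpace ℂ W]
variable {W' : Type*} [NormedAddCommGroup W'] [NormedSpace ℂ W']

/-- convexity, written with complex scalars -/
def CC (Ω : Set W) : Prop :=
  ∀ x ∈ Ω, ∀ y ∈ Ω, ∀ t : ℝ, 0 ≤ t → t ≤ 1 → x + (t : ℂ) • (y - x) ∈ Ω

theorem CC.ball (c : W) (r : ℝ) : CC (Metric.ball c r) := by
  intro x hx y hy t ht0 ht1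
  rw [mem_ball_iff_norm] at *
  have e : x + (t : ℂ) • (y - x) - c = ((1 - t : ℝ) : ℂ) • (x - c) + (t : ℂ) • (y - c) := by
    push_cast
    module
  rw [e]
  have h1 : ‖((1 - t : ℝ) : ℂ) • (x - c) + (t : ℂ) • (y - c)‖ ≤
      (1 - t) * ‖x - c‖ + t * ‖y - c‖ := by
    refine (norm_add_le _ _).trans (le_of_eq ?_)
    rw [norm_smul, norm_smul, Complex.norm_real, Complex.norm_real, Real.norm_of_nonneg ht0,
      Real.norm_of_nonneg (by linarith)]
  rcases eq_or_lt_of_le ht0 with h | h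
  · subst h
    simpa using lt_of_le_of_lt h1 (by simpa using hx)
  · nlinarith [mul_lt_mul_of_pos_left hy h, mul_le_mul_of_nonneg_left hx.le (by linarith : 0 ≤ 1 - t)]

theorem CC.inter {Ω Ω' : Set W} (h : CC Ω) (h' : CC Ω') : CC (Ω ∩ Ω') :=
  fun x hx y hy t h0 h1 => ⟨h x hx.1 y hy.1 t h0 h1, h' x hx.2 y hy.2 t h0 h1⟩

theorem CC.iInter {ι : Type*} {Ω : ι → Set W} (h : ∀ i, CC (Ω i)) : CC (⋂ i, Ω i) := by
  intro x hx y hy t h0 h1
  rw [mem_iInter] at *
  exact fun i => h i x (hx i) y (hy i) t h0 h1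

theorem CC.prod {Ω : Set W} {Ω' : Set W'} (h : CC Ω) (h' : CC Ω') : CC (Ω ×ˢ Ω') :=
  fun x hx y hy t h0 h1 => ⟨h x.1 hx.1 y.1 hy.1 t h0 h1, h' x.2 hx.2 y.2 hy.2 t h0 h1⟩

theorem CC.preimage {Ω : Set W'} (h : CC Ω) (L : W →L[ℂ] W') (b : W') :
    CC ((fun x => b + L x) ⁻¹' Ω) := by
  intro x hx y hy t h0 h1
  have e : b + L (x + (t : ℂ) • (y - x)) = (b + L x) + (t : ℂ) • ((b + L y) - (b + L x)) := by
    rw [map_add, map_smul, map_sub]
    module
  have := h _ hx _ hy t h0 h1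
  rw [← e] at this
  exact this

theorem CC.preconnected {U : Set ℂ} (h : CC U) : IsPreconnected U := by
  apply Convex.isPreconnected
  intro x hx y hy a b ha hb hab
  have := h x hx y hy b hb (by linarith)
  have e : a • x + b • y = x + (b : ℂ) • (y - x) := by
    have : a = 1 - b := by linarith
    subst this
    simp only [Complex.real_smul, smul_eq_mul]
    push_cast
    ring
  rw [e]
  exact this

/-- identity theorem for holomorphic functions on a convex open set -/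
theorem ident {Ω : Set W} (hΩ : IsOpen Ω) (hc : CC Ω) {F : W → ℂ}
    (hF : DifferentiableOn ℂ F Ω) {x₀ : W} (hx₀ : x₀ ∈ Ω) (h0 : ∀ᶠ x in 𝓝 x₀, F x = 0) :
    ∀ x ∈ Ω, F x = 0 := by
  intro x hx
  let L : ℂ →L[ℂ] W := ContinuousLinearMap.toSpanSingleton ℂ (x - x₀)
  let γ : ℂ → W := fun ζ => x₀ + L ζ
  have hγc : Continuous γ := by fun_prop
  have hγd : Differentiable ℂ γ := by fun_prop
  have hU : IsOpen (γ ⁻¹' Ω) := hΩ.preimage hγc
  have hUc : CC (γ ⁻¹' Ω) := hc.preimage L x₀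
  have hφ : AnalyticOnNhd ℂ (F ∘ γ) (γ ⁻¹' Ω) :=
    (hF.comp hγd.differentiableOn (mapsTo_preimage _ _)).analyticOnNhd hU
  have hγ0 : γ 0 = x₀ := by simp [γ]
  have hγ1 : γ 1 = x := by simp [γ, L]
  have h0' : ∀ᶠ ζ in 𝓝 (0 : ℂ), (F ∘ γ) ζ = 0 := by
    have : Tendsto γ (𝓝 0) (𝓝 x₀) := by
      have := hγc.tendsto 0
      rwa [hγ0] at this
    exact this.eventually h0
  have := hφ.eqOn_zero_of_preconnected_of_eventuallyEq_zero hUc.preconnected (z₀ := 0)
    (by rw [mem_preimage, hγ0]; exact hx₀) h0'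
  have h1 : (1 : ℂ) ∈ γ ⁻¹' Ω := by rw [mem_preimage, hγ1]; exact hx
  have h2 := this h1
  rw [Function.comp_apply, hγ1] at h2
  exact h2

/-- real identity theorem in one variable -/
theorem ident_real {U : Set ℂ} (hU : IsOpen U) (hc : CC U) {φ : ℂ → ℂ}
    (hφ : DifferentiableOn ℂ φ U) (h0 : (0 : ℂ) ∈ U) (hz : ∀ᶠ t : ℝ in 𝓝 0, φ (t : ℂ) = 0) :
    ∀ ζ ∈ U, φ ζ = 0 := by
  have hA : AnalyticOnNhd ℂ φ U := hφ.analyticOnNhd hU
  have hfr : ∃ᶠ z in 𝓝[≠] (0 : ℂ), φ z = 0 := by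
    have ht : Tendsto (fun t : ℝ => (t : ℂ)) (𝓝[≠] 0) (𝓝[≠] 0) := by
      apply tendsto_nhdsWithin_of_tendsto_nhds_of_eventually_within
      · have : Tendsto (fun t : ℝ => (t : ℂ)) (𝓝 0) (𝓝 ((0 : ℝ) : ℂ)) :=
          Complex.continuous_ofReal.tendsto 0
        rw [Complex.ofReal_zero] at this
        exact this.mono_left nhdsWithin_le_nhds
      · filter_upwards [self_mem_nhdsWithin] with t ht
        simpa using ht
    have h1 : ∀ᶠ t : ℝ in 𝓝[≠] 0, φ (t : ℂ) = 0 := hz.filter_mono nhdsWithin_le_nhds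
    exact ht.frequently h1.frequently
  exact hA.eqOn_zero_of_preconnected_of_frequently_eq_zero hc.preconnected h0 hfr

variable [StarAddMonoid W] [StarModule ℂ W] [ContinuousStar W]

/-- polarisation: a holomorphic function of two variables vanishing on the real form vanishes -/
theorem polar {Ω : Set (W × W)} (hΩ : IsOpen Ω) (hc : CC Ω) {F : W × W → ℂ}
    (hF : DifferentiableOn ℂ F Ω) {w₀ : W} (hw₀ : (w₀, star w₀) ∈ Ω)
    (h0 : ∀ᶠ w in 𝓝 w₀, F (w, star w) = 0) : ∀ x ∈ Ω, F x = 0 := by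
  refine ident hΩ hc hF hw₀ ?_
  -- for `x` near the base point the whole slab belongs to `Ω`
  obtain ⟨r, hr, hball⟩ : ∃ r > 0, Metric.ball (w₀, star w₀) r ⊆ Ω := by
    rw [Metric.isOpen_iff] at hΩ
    exact hΩ _ hw₀
  obtain ⟨r', hr', hz⟩ := Metric.eventually_nhds_iff_ball.1 h0
  let b₁ : W × W → W := fun x => (2⁻¹ : ℂ) • ((x.1 - w₀) + star (x.2 - star w₀))
  let b₂ : W × W → W := fun x =>
    ((2 * Complex.I)⁻¹ : ℂ) • ((x.1 - w₀) - star (x.2 - star w₀))
  have hb₁ : Continuous b₁ := by fun_prop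
  have hb₂ : Continuous b₂ := by fun_prop
  have hb₁0 : b₁ (w₀, star w₀) = 0 := by simp [b₁]
  have hb₂0 : b₂ (w₀, star w₀) = 0 := by simp [b₂]
  let s : ℝ := min r r'
  have hs : 0 < s := lt_min hr hr'
  have e1 : ∀ᶠ x in 𝓝 (w₀, star w₀), ‖b₁ x‖ < s / 8 := by
    have : Tendsto (fun x => ‖b₁ x‖) (𝓝 (w₀, star w₀)) (𝓝 0) := by
      have := (hb₁.norm).tendsto (w₀, star w₀)
      rwa [hb₁0, norm_zero] at this
    exact this.eventually (gt_mem_nhds (by positivity))
  have e2 : ∀ᶠ x in 𝓝 (w₀, star w₀), ‖b₂ x‖ < s / 8 := by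
    have : Tendsto (fun x => ‖b₂ x‖) (𝓝 (w₀, star w₀)) (𝓝 0) := by
      have := (hb₂.norm).tendsto (w₀, star w₀)
      rwa [hb₂0, norm_zero] at this
    exact this.eventually (gt_mem_nhds (by positivity))
  have e1' : ∀ᶠ x in 𝓝 (w₀, star w₀), ‖star (b₁ x)‖ < s / 8 := by
    have : Tendsto (fun x => ‖star (b₁ x)‖) (𝓝 (w₀, star w₀)) (𝓝 0) := by
      have := ((hb₁.star).norm).tendsto (w₀, star w₀)
      rwa [hb₁0, star_zero, norm_zero] at this
    exact this.eventually (gt_mem_nhds (by positivity))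
  have e2' : ∀ᶠ x in 𝓝 (w₀, star w₀), ‖star (b₂ x)‖ < s / 8 := by
    have : Tendsto (fun x => ‖star (b₂ x)‖) (𝓝 (w₀, star w₀)) (𝓝 0) := by
      have := ((hb₂.star).norm).tendsto (w₀, star w₀)
      rwa [hb₂0, star_zero, norm_zero] at this
    exact this.eventually (gt_mem_nhds (by positivity))
  filter_upwards [e1, e2, e1', e2'] with x h1 h2 h1' h2'
  -- the complexified segment
  let γ : ℂ → W × W := fun ζ =>
    (w₀ + (b₁ x + ζ • b₂ x), star w₀ + (star (b₁ x) + ζ • star (b₂ x)))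
  have hγd : Differentiable ℂ γ := by
    apply Differentiable.prodMk
    · exact (differentiable_const _).add ((differentiable_const _).add
        (differentiable_id.smul_const _))
    · exact (differentiable_const _).add ((differentiable_const _).add
        (differentiable_id.smul_const _))
  have hmem : ∀ ζ ∈ Metric.ball (0 : ℂ) 2, γ ζ ∈ Ω := by
    intro ζ hζ
    apply hball
    rw [mem_ball_zero_iff] at hζ
    rw [mem_ball_iff_norm, Prod.norm_def]
    have hsr : s ≤ r := min_le_left _ _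
    apply max_lt
    · have : (γ ζ - (w₀, star w₀)).1 = b₁ x + ζ • b₂ x := by simp [γ]
      rw [this]
      calc ‖b₁ x + ζ • b₂ x‖ ≤ ‖b₁ x‖ + ‖ζ‖ * ‖b₂ x‖ := by
            refine (norm_add_le _ _).trans ?_
            rw [norm_smul ζ (b₂ x)]
        _ < r := by nlinarith [norm_nonneg (b₂ x), norm_nonneg ζ]
    · have : (γ ζ - (w₀, star w₀)).2 = star (b₁ x) + ζ • star (b₂ x) := by simp [γ]
      rw [this]
      calc ‖star (b₁ x) + ζ • star (b₂ x)‖ ≤ ‖star (b₁ x)‖ + ‖ζ‖ * ‖star (b₂ x)‖ := by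
            refine (norm_add_le _ _).trans ?_
            rw [norm_smul ζ (star (b₂ x))]
        _ < r := by nlinarith [norm_nonneg (star (b₂ x)), norm_nonneg ζ]
  have hφ : DifferentiableOn ℂ (F ∘ γ) (Metric.ball (0 : ℂ) 2) :=
    hF.comp hγd.differentiableOn hmem
  have hzero : ∀ᶠ t : ℝ in 𝓝 0, (F ∘ γ) (t : ℂ) = 0 := by
    have ht : ∀ᶠ t : ℝ in 𝓝 0, |t| < 1 := by
      have : Tendsto (fun t : ℝ => |t|) (𝓝 0) (𝓝 |0|) := (continuous_abs).tendsto 0
      rw [abs_zero] at this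
      exact this.eventually (gt_mem_nhds (by norm_num))
    filter_upwards [ht] with t ht
    have e : γ (t : ℂ) = (w₀ + (b₁ x + (t : ℂ) • b₂ x), star (w₀ + (b₁ x + (t : ℂ) • b₂ x))) := by
      simp only [γ, star_add, star_smul]
      have : star (t : ℂ) = (t : ℂ) := Complex.conj_ofReal t
      rw [this]
    rw [Function.comp_apply, e]
    apply hz
    rw [mem_ball_iff_norm]
    have hsr : s ≤ r' := min_le_right _ _
    have : w₀ + (b₁ x + (t : ℂ) • b₂ x) - w₀ = b₁ x + (t : ℂ) • b₂ x := by abel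
    rw [this]
    calc ‖b₁ x + (t : ℂ) • b₂ x‖ ≤ ‖b₁ x‖ + |t| * ‖b₂ x‖ := by
          refine (norm_add_le _ _).trans ?_
          rw [norm_smul (t : ℂ) (b₂ x), Complex.norm_real, Real.norm_eq_abs]
      _ < r' := by nlinarith [norm_nonneg (b₂ x), abs_nonneg t]
  have hfin := ident_real Metric.isOpen_ball (CC.ball (0 : ℂ) 2) hφ (by simp) hzero Complex.I
    (by simp)
  have hI : γ Complex.I = x := by
    have hI2 : Complex.I * (2 * Complex.I)⁻¹ = 2⁻¹ := by
      field_simp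
    have hI3 : Complex.I * star ((2 * Complex.I)⁻¹) = -2⁻¹ := by
      have : star ((2 * Complex.I)⁻¹ : ℂ) = -(2 * Complex.I)⁻¹ := by
        simp
      rw [this, mul_neg, hI2]
    apply Prod.ext
    · simp only [γ, b₁, b₂]
      rw [smul_smul, hI2]
      module
    · simp only [γ, b₁, b₂, star_smul, star_add, star_sub, star_star]
      rw [smul_smul, hI3]
      have : star (2⁻¹ : ℂ) = 2⁻¹ := by simp
      rw [this]
      module
  rw [Function.comp_apply, hI] at hfin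
  exact hfin

end A

/-- conjugating the argument and the value keeps holomorphy -/
theorem starstar {W : Type*} [NormedAddCommGroup W] [NormedSpace ℂ W] [StarAddMonoid W]
    [StarModule ℂ W] [ContinuousStar W] {g : W → ℂ} {Ω Ω' : Set W}
    (hΩ : IsOpen Ω) (hg : DifferentiableOn ℂ g Ω) (h : ∀ w ∈ Ω', star w ∈ Ω) :
    DifferentiableOn ℂ (fun w => star (g (star w))) Ω' := by
  intro w hw
  have h1 : DifferentiableAt ℂ g (star w) := (hg _ (h w hw)).differentiableAt (hΩ.mem_nhds (h w hw))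
  have h2 := h1.star_star
  rw [star_star] at h2
  exact h2.differentiableWithinAt

end Run7.h682.HR
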